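import Mathlib
import Pool.Agent.Lib.MP_5b78b3_gt.Final

/-! Where the multipliers of the linearised floating body map differ from one. -/

namespace Pool.Agent.Lib.MP_5b78b3_gt.Rig

open MeasureTheory Metric Set

lemma gam_pos (d j : ℕ) : 0 < gam d j := by
  induction j with
  | zero => simp [gam]
  | succ j ih => rw [gam]; positivity

lemma gam_le (m j : ℕ) : gam (m + 2) j ≤ 1 / (2 * j + 1) := by
  induction j with
  | zero => simp [gam]
  | succ j ih =>
    rw [gam, div_le_div_iff₀ (by positivity) (by positivity)]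
    rw [le_div_iff₀ (by positivity)] at ih
    push_cast
    have h1 : (0 : ℝ) ≤ m := by positivity
    have h2 : (0 : ℝ) ≤ j := by positivity
    nlinarith

lemma tl_le (m j : ℕ) {l : ℝ} (h0 : 0 < l) (h1 : l < 1) :
    tl (m + 2) j l ≤ 1 / ((j + 1) * (1 - l ^ 2)) := by
  have hp : 0 < 1 - l ^ 2 := by nlinarith
  rw [le_div_iff₀ (by positivity), tl, Finset.sum_mul]
  have e : (1 : ℝ) = ((1 - l ^ 2) + l ^ 2) ^ (j + 1) := by simp
  rw [add_pow, Finset.sum_range_succ' _ (j + 1)] at e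
  refine le_trans ?_ e.ge
  refine le_trans (Finset.sum_le_sum fun i hi => ?_) (le_add_of_nonneg_right (by positivity))
  have h2 := gam_le m i
  have h3 : ((j + 1 : ℕ) : ℝ) * (j.choose i : ℝ) = ((j + 1).choose (i + 1) : ℝ) * ((i + 1 : ℕ) : ℝ) := by
    exact_mod_cast Nat.add_one_mul_choose_eq j i
  push_cast at h3
  rw [le_div_iff₀ (by positivity)] at h2
  have h4 : gam (m + 2) i * (i + 1) ≤ 1 := by
    have := gam_pos (m + 2) i
    have h5 : (0 : ℝ) ≤ i := by positivity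
    nlinarith
  rw [show j + 1 - (i + 1) = j - i by omega]
  calc (j.choose i : ℝ) * (l ^ 2) ^ (j - i) * (1 - l ^ 2) ^ i * gam (m + 2) i * ((j + 1) * (1 - l ^ 2))
      = (1 - l ^ 2) ^ (i + 1) * (l ^ 2) ^ (j - i) * (((j + 1) * (j.choose i : ℝ)) * gam (m + 2) i) := by
        ring
    _ = (1 - l ^ 2) ^ (i + 1) * (l ^ 2) ^ (j - i) * ((j + 1).choose (i + 1) : ℝ) *
        (gam (m + 2) i * (i + 1)) := by rw [h3]; ring
    _ ≤ _ := mul_le_of_le_one_right (by positivity) h4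

lemma QQ_le_tl (m : ℕ) {k j : ℕ} (h : 2 * j ≤ k) {l : ℝ} (h0 : 0 < l) (h1 : l < 1) :
    |QQ (m + 2) k l| ≤ tl (m + 2) j l := by
  obtain ⟨hB, h2, h3, -⟩ := cap_formula m h0 h1
  have h4 := h3 k j h
  rw [h2, abs_mul, abs_of_pos hB] at h4
  exact le_of_mul_le_mul_left h4 hB

lemma QQ_one (d : ℕ) (l : ℝ) : QQ d 1 l = l := by simp [QQ, gam]

lemma QQ_lt_quarter (m : ℕ) {k : ℕ} (hk : 2 ≤ k) {l : ℝ} (h0 : 1 / 4 ≤ l) (h1 : l < 1) :
    QQ (m + 2) k l < l := by
  have a1 := gam_pos (m + 2) 1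
  have a2 := gam_pos (m + 2) 2
  have b1 := gam_le m 1
  have b2 := gam_le m 2
  norm_num at b1 b2
  have hp : 0 < 1 - l ^ 2 := by nlinarith
  rcases hk.eq_or_lt with rfl | hk
  · have : QQ (m + 2) 2 l = l ^ 2 - (1 - l ^ 2) * gam (m + 2) 1 := by
      simp [QQ, Finset.sum_range_succ, show gam (m + 2) 0 = 1 from rfl]; ring
    rw [this]; nlinarith [mul_pos hp a1]
  rcases (Nat.succ_le_of_lt hk).eq_or_lt with rfl | hk
  · have : QQ (m + 2) 3 l = l ^ 3 - 3 * l * (1 - l ^ 2) * gam (m + 2) 1 := by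
      simp [QQ, Finset.sum_range_succ, show gam (m + 2) 0 = 1 from rfl, Nat.choose]; ring
    rw [this]
    have h3 : 0 < l * (1 - l ^ 2) := by positivity
    nlinarith [mul_pos h3 a1]
  refine lt_of_le_of_lt ((le_abs_self _).trans (QQ_le_tl m (j := 2) hk (by linarith) h1)) ?_
  have : tl (m + 2) 2 l = l ^ 4 + 2 * l ^ 2 * (1 - l ^ 2) * gam (m + 2) 1 +
      (1 - l ^ 2) ^ 2 * gam (m + 2) 2 := by
    simp [tl, Finset.sum_range_succ, show gam (m + 2) 0 = 1 from rfl, Nat.choose]; ring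
  rw [this]
  have h3 : 2 * l ^ 2 * (1 - l ^ 2) * gam (m + 2) 1 ≤ 2 * l ^ 2 * (1 - l ^ 2) * (1 / 3) := by
    gcongr
  have h4 : (1 - l ^ 2) ^ 2 * gam (m + 2) 2 ≤ (1 - l ^ 2) ^ 2 * (1 / 5) := by
    gcongr
  have h5 : 0 < l * (1 + l + l ^ 2) - 2 / 3 * l ^ 2 * (1 + l) - 1 / 5 * (1 - l) * (1 + l) ^ 2 := by
    nlinarith [sq_nonneg l, mul_nonneg (sq_nonneg l) (by linarith : 0 ≤ l)]
  nlinarith [mul_pos (by linarith : 0 < 1 - l) h5]

lemma im_pow_le (w : ℂ) (j : ℕ) : |(w ^ (j + 1)).im| ≤ (j + 1) * ‖w‖ ^ j * |w.im| := by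
  induction j with
  | zero => simp
  | succ j ih =>
    rw [pow_succ w (j + 1), Complex.mul_im]
    have h1 : |(w ^ (j + 1)).re| ≤ ‖w‖ ^ (j + 1) := by
      simpa using Complex.abs_re_le_norm (w ^ (j + 1))
    have h2 := Complex.abs_re_le_norm w
    refine (abs_add_le _ _).trans ?_
    rw [abs_mul, abs_mul]
    have h3 := mul_le_mul ih h2 (abs_nonneg _) (by positivity)
    have h4 := mul_le_mul_of_nonneg_right h1 (abs_nonneg w.im)
    push_cast
    calc _ ≤ ‖w‖ ^ (j + 1) * |w.im| + (j + 1) * ‖w‖ ^ j * |w.im| * ‖w‖ := add_le_add h4 h3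
      _ = _ := by ring

lemma unif_le (i : ℕ) {l r : ℝ} (h0 : 0 < l) (hr : 0 ≤ r) (h1 : l ^ 2 + r ^ 2 ≤ 1) :
    ∑ j ∈ Finset.range ((2 * i + 3) / 2 + 1), (-1) ^ j * ((2 * i + 3).choose (2 * j) : ℝ) *
      l ^ (2 * i + 3 - 2 * j) * (r ^ (2 * j + 1) / (2 * j + 1)) ≤ r * l * (l ^ 2 + r ^ 2) := by
  have e1 : ∫ s in (0 : ℝ)..r, (((l : ℂ) + (s : ℂ) * Complex.I) ^ (2 * i + 3)).re
      = ∑ j ∈ Finset.range ((2 * i + 3) / 2 + 1), (-1) ^ j * ((2 * i + 3).choose (2 * j) : ℝ) *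
      l ^ (2 * i + 3 - 2 * j) * (r ^ (2 * j + 1) / (2 * j + 1)) := by
    simp only [capmom_re]
    rw [intervalIntegral.integral_finsetSum fun j _ => Continuous.intervalIntegrable (by fun_prop) _ _]
    refine Finset.sum_congr rfl fun j _ => ?_
    rw [intervalIntegral.integral_const_mul, integral_pow]
    simp
  have e2 := intervalIntegral.integral_eq_sub_of_hasDerivAt (a := 0) (b := r)
    (f := fun s : ℝ => (((l : ℂ) + (s : ℂ) * Complex.I) ^ (2 * i + 4)).im / (2 * i + 4))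
    (f' := fun s : ℝ => (((l : ℂ) + (s : ℂ) * Complex.I) ^ (2 * i + 3)).re) (fun s _ => by
      have h := ((Complex.ofRealCLM.hasDerivAt (x := s)).mul_const Complex.I).const_add (l : ℂ)
      have h2 := (Complex.imCLM.hasFDerivAt.comp_hasDerivAt s (h.fun_pow (2 * i + 4))).div_const
        (2 * i + 4 : ℝ)
      refine HasDerivAt.congr_deriv h2 ?_
      simp only [Complex.ofRealCLM_apply, Complex.ofReal_one, one_mul, Complex.imCLM_apply,
        show 2 * i + 4 - 1 = 2 * i + 3 by omega, Complex.mul_I_im]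
      rw [← nsmul_eq_mul, Complex.re_nsmul, nsmul_eq_mul]
      push_cast
      field_simp) (Continuous.intervalIntegrable (by fun_prop) _ _)
  rw [← e1, e2]
  have e3 : (((l : ℂ) + ((0 : ℝ) : ℂ) * Complex.I) ^ (2 * i + 4)).im = 0 := by
    simp [← Complex.ofReal_pow]
  rw [e3, zero_div, sub_zero, div_le_iff₀ (by positivity),
    show 2 * i + 4 = 2 * (i + 1 + 1) by ring, pow_mul]
  refine (le_abs_self _).trans ((im_pow_le _ (i + 1)).trans ?_)
  have n1 : ‖((l : ℂ) + (r : ℂ) * Complex.I) ^ 2‖ = l ^ 2 + r ^ 2 := by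
    rw [norm_pow, Complex.sq_norm, Complex.normSq_add_mul_I]
  have n2 : (((l : ℂ) + (r : ℂ) * Complex.I) ^ 2).im = 2 * l * r := by
    simp [pow_two]; ring
  rw [n1, n2, abs_of_nonneg (by positivity)]
  have n3 : (l ^ 2 + r ^ 2) ^ (i + 1) ≤ l ^ 2 + r ^ 2 :=
    pow_le_of_le_one (by positivity) h1 (by omega)
  push_cast
  calc ((i : ℝ) + 1 + 1) * (l ^ 2 + r ^ 2) ^ (i + 1) * (2 * l * r)
      ≤ ((i : ℝ) + 1 + 1) * (l ^ 2 + r ^ 2) * (2 * l * r) := by gcongr
    _ = _ := by ring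

lemma mix_rec (n j : ℕ) :
    (2 * j + n + 4 : ℝ) * ∫ s in (0 : ℝ)..1, s ^ n * √(1 - s ^ 2) ^ (2 * (j + 1) + 1) =
      (2 * j + 3) * ∫ s in (0 : ℝ)..1, s ^ n * √(1 - s ^ 2) ^ (2 * j + 1) := by
  have h := intervalIntegral.integral_eq_sub_of_hasDerivAt_of_le (a := 0) (b := 1) zero_le_one
    (f := fun s : ℝ => s ^ (n + 1) * √(1 - s ^ 2) ^ (2 * j + 3))
    (f' := fun s => (2 * j + n + 4 : ℝ) * (s ^ n * √(1 - s ^ 2) ^ (2 * (j + 1) + 1)) -
      (2 * j + 3) * (s ^ n * √(1 - s ^ 2) ^ (2 * j + 1)))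
    (by fun_prop) ?_ (Continuous.intervalIntegrable (by fun_prop) _ _)
  · rw [intervalIntegral.integral_sub (Continuous.intervalIntegrable (by fun_prop) _ _)
      (Continuous.intervalIntegrable (by fun_prop) _ _), intervalIntegral.integral_const_mul,
      intervalIntegral.integral_const_mul] at h
    simp only [one_pow, sub_self, Real.sqrt_zero, ne_eq, Nat.add_eq_zero_iff,
      OfNat.ofNat_ne_zero, and_false, not_false_eq_true, zero_pow, mul_zero, one_ne_zero,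
      zero_mul] at h
    linarith
  · intro t ht
    have hp : 0 < 1 - t ^ 2 := by nlinarith [ht.1, ht.2]
    have hs := Real.sqrt_pos.2 hp
    have e := Real.sq_sqrt hp.le
    have h1 : HasDerivAt (fun t : ℝ => 1 - t ^ 2) (-(2 * t)) t := by
      simpa using (hasDerivAt_pow 2 t).const_sub 1
    refine HasDerivAt.congr_deriv ((hasDerivAt_pow (n + 1) t).mul
      ((h1.sqrt hp.ne').fun_pow (2 * j + 3))) ?_
    generalize √(1 - t ^ 2) = s at hs e
    simp only [Nat.add_sub_cancel, show 2 * j + 3 - 1 = 2 * j + 2 by omega]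
    push_cast
    field_simp
    have e' : t ^ 2 = 1 - s ^ 2 := by linarith
    have : t ^ (n + 1) * t = t ^ n * (1 - s ^ 2) := by rw [← e']; ring
    linear_combination (-(2 * j + 3 : ℝ) * s ^ (2 * j + 2)) * this

lemma mix_eq (n j : ℕ) : ∫ s in (0 : ℝ)..1, s ^ n * √(1 - s ^ 2) ^ (2 * j + 1) =
    (2 * j + 1) * gam (n + 3) j * ∫ s in (0 : ℝ)..1, s ^ n * √(1 - s ^ 2) ^ (2 * 0 + 1) := by
  induction j with
  | zero => simp [gam]
  | succ j ih =>
    have h := mix_rec n j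
    rw [ih] at h
    rw [gam]
    push_cast
    have h0 : (2 * j + n + 4 : ℝ) ≠ 0 := by positivity
    have h1 : (2 * j + (n + 3) + 1 : ℝ) ≠ 0 := by positivity
    apply mul_left_cancel₀ h0
    rw [h]
    field_simp
    ring

lemma QQ_lt_odd (n i : ℕ) {l : ℝ} (h0 : 0 < l) (h1 : l < 1) : QQ (n + 3) (2 * i + 3) l < l := by
  have hp : 0 < 1 - l ^ 2 := by nlinarith
  set I := ∫ s in (0 : ℝ)..1, s ^ n * √(1 - s ^ 2) ^ (2 * 0 + 1) with hI
  have hI0 : 0 < I := intervalIntegral.intervalIntegral_pos_of_pos_on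
    (Continuous.intervalIntegrable (by fun_prop) _ _) (fun s hs => by
      have : 0 < 1 - s ^ 2 := by nlinarith [hs.1, hs.2]
      have := hs.1
      positivity) one_pos
  set ρ := √(1 - l ^ 2) with hρ
  have hρ0 : 0 < ρ := Real.sqrt_pos.2 hp
  have e : ρ ^ 2 = 1 - l ^ 2 := Real.sq_sqrt hp.le
  have key := intervalIntegral.integral_mono_on (μ := volume) (a := 0) (b := 1) zero_le_one
    (f := fun s : ℝ => ∑ j ∈ Finset.range ((2 * i + 3) / 2 + 1),
      ((-1) ^ j * ((2 * i + 3).choose (2 * j) : ℝ) * l ^ (2 * i + 3 - 2 * j) *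
        (ρ ^ (2 * j + 1) / (2 * j + 1))) * (s ^ n * √(1 - s ^ 2) ^ (2 * j + 1)))
    (g := fun s : ℝ => ρ * l ^ 3 * (s ^ n * √(1 - s ^ 2) ^ (2 * 0 + 1)) +
      ρ ^ 3 * l * (s ^ n * √(1 - s ^ 2) ^ (2 * 1 + 1)))
    (Continuous.intervalIntegrable (by fun_prop) _ _)
    (Continuous.intervalIntegrable (by fun_prop) _ _) (fun s hs => by
      have h2 : √(1 - s ^ 2) ^ 2 ≤ 1 := by
        rw [Real.sq_sqrt (by nlinarith [hs.1, hs.2])]; nlinarith
      have h3 := unif_le i h0 (r := ρ * √(1 - s ^ 2)) (by positivity) (by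
        rw [mul_pow]; nlinarith)
      have h4 := mul_le_mul_of_nonneg_left h3 (pow_nonneg hs.1 n)
      rw [Finset.mul_sum] at h4
      refine le_trans (le_of_eq (Finset.sum_congr rfl fun j _ => ?_)) (h4.trans (le_of_eq ?_))
      · rw [mul_pow]; ring
      · ring)
  rw [intervalIntegral.integral_finsetSum fun j _ => Continuous.intervalIntegrable (by fun_prop) _ _,
    intervalIntegral.integral_add (Continuous.intervalIntegrable (by fun_prop) _ _)
      (Continuous.intervalIntegrable (by fun_prop) _ _)] at key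
  simp only [intervalIntegral.integral_const_mul] at key
  rw [mix_eq n 1, Finset.sum_congr rfl fun j _ => by rw [mix_eq n j], ← hI] at key
  have e2 : ∑ j ∈ Finset.range ((2 * i + 3) / 2 + 1),
      ((-1) ^ j * ((2 * i + 3).choose (2 * j) : ℝ) * l ^ (2 * i + 3 - 2 * j) *
        (ρ ^ (2 * j + 1) / (2 * j + 1))) * ((2 * j + 1) * gam (n + 3) j * I)
      = ρ * I * QQ (n + 3) (2 * i + 3) l := by
    rw [QQ, Finset.mul_sum]
    refine Finset.sum_congr rfl fun j _ => ?_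
    rw [← e, ← pow_mul, pow_succ ρ]
    field_simp
  have e3 : gam (n + 3) 1 ≤ 1 / 4 := by
    have : gam (n + 3) 1 = 1 / (n + 4) := by simp [gam]; ring
    rw [this]
    have h5 : (0 : ℝ) ≤ n := by positivity
    gcongr; linarith
  rw [e2] at key
  have h6 : ρ * I * QQ (n + 3) (2 * i + 3) l < ρ * I * l := by
    refine key.trans_lt ?_
    have h7 : ρ * l ^ 3 * I + ρ ^ 3 * l * ((2 * ((1 : ℕ) : ℝ) + 1) * gam (n + 3) 1 * I)
        = ρ * I * (l * (l ^ 2 + (1 - l ^ 2) * (3 * gam (n + 3) 1))) := by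
      rw [← e]; push_cast; ring
    rw [h7]
    refine mul_lt_mul_of_pos_left (mul_lt_of_lt_one_right h0 ?_) (by positivity)
    nlinarith
  exact lt_of_mul_lt_mul_left h6 (by positivity)

lemma QQ_finite (m : ℕ) {k : ℕ} (hk : 2 ≤ k) : {l : ℝ | QQ (m + 2) k l = l}.Finite := by
  let P : Polynomial ℝ := (∑ j ∈ Finset.range (k / 2 + 1),
    Polynomial.C ((-1) ^ j * (k.choose (2 * j) : ℝ) * gam (m + 2) j) *
      (Polynomial.X ^ (k - 2 * j) * (1 - Polynomial.X ^ 2) ^ j)) - Polynomial.X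
  have hP : ∀ l, P.eval l = QQ (m + 2) k l - l := fun l => by
    simp only [P, QQ, Polynomial.eval_sub, Polynomial.eval_finsetSum, Polynomial.eval_mul,
      Polynomial.eval_C, Polynomial.eval_pow, Polynomial.eval_X, Polynomial.eval_one]
    congr 1
    exact Finset.sum_congr rfl fun j _ => by ring
  have h0 : P ≠ 0 := fun h => by
    have h1 := hP (1 / 2)
    have h2 := QQ_lt_quarter m hk (l := 1 / 2) (by norm_num) (by norm_num)
    rw [h, Polynomial.eval_zero] at h1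
    linarith
  refine (P.roots.toFinset.finite_toSet).subset fun l hl => ?_
  have : QQ (m + 2) k l = l := hl
  simp [h0, Polynomial.IsRoot, hP, this]

lemma exists_tail (m : ℕ) {a b : ℝ} (ha : 0 < a) (hb : b < 1) :
    ∃ j, 0 < j ∧ ∀ l ∈ Icc a b, tl (m + 2) j l ≤ a / 2 := by
  rcases lt_or_ge b a with h | h
  · exact ⟨1, one_pos, fun l hl => absurd (hl.1.trans hl.2) (not_le.2 h)⟩
  have hp : 0 < 1 - b ^ 2 := by nlinarith
  obtain ⟨j, hj⟩ := exists_nat_gt (2 / a / (1 - b ^ 2))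
  refine ⟨j + 1, by omega, fun l hl => (tl_le m _ (ha.trans_le hl.1) (hl.2.trans_lt hb)).trans ?_⟩
  rw [div_lt_iff₀ hp, div_lt_iff₀ ha] at hj
  have h1 : 1 - b ^ 2 ≤ 1 - l ^ 2 := by nlinarith [hl.1, hl.2]
  rw [div_le_div_iff₀ (by have := hp.trans_le h1; positivity) two_pos]
  have h2 : (j : ℝ) * (1 - b ^ 2) ≤ (((j + 1 : ℕ) : ℝ) + 1) * (1 - l ^ 2) :=
    mul_le_mul (by push_cast; linarith) h1 hp.le (by positivity)
  nlinarith

/-- a uniform gap of the multipliers on an interval -/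
theorem gap (m : ℕ) {a b : ℝ} (ha : 0 < a) (hb : b < 1) (P : ℕ → Prop)
    (h : ∀ l ∈ Icc a b, ∀ k, 2 ≤ k → P (k + 1) → QQ (m + 2) k l ≠ l) :
    ∃ g > 0, ∀ l ∈ Icc a b, ∀ i : ℕ, i ≠ 2 → P i →
      g ≤ |Ic l (ee0 m) (ee1 m) i / Bc l (ee0 m) - 1| := by
  obtain ⟨j, hj, ht⟩ := exists_tail m ha hb
  have h1 : ∀ N : ℕ, ∃ g > 0, ∀ l ∈ Icc a b, ∀ k < N, 2 ≤ k → P (k + 1) →
      g ≤ |QQ (m + 2) k l - l| := by
    intro N
    induction N with
    | zero => exact ⟨1, one_pos, fun l _ k hk => absurd hk (by omega)⟩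
    | succ N ih =>
      obtain ⟨g, hg, hg'⟩ := ih
      by_cases hN : 2 ≤ N ∧ P (N + 1)
      · obtain ⟨g', h2, h3⟩ := isCompact_Icc.exists_forall_le' (s := Icc a b)
          (f := fun l => |QQ (m + 2) N l - l|) (a := 0)
          (Continuous.continuousOn (by unfold QQ; fun_prop))
          (fun l hl => abs_pos.2 (sub_ne_zero.2 (h l hl N hN.1 hN.2)))
        refine ⟨min g g', lt_min hg h2, fun l hl k hk h4 h5 => ?_⟩
        rcases (Nat.lt_succ_iff.1 hk).eq_or_lt with rfl | hk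
        · exact (min_le_right _ _).trans (h3 l hl)
        · exact (min_le_left _ _).trans (hg' l hl k hk h4 h5)
      · refine ⟨g, hg, fun l hl k hk h4 h5 => ?_⟩
        rcases (Nat.lt_succ_iff.1 hk).eq_or_lt with rfl | hk
        · exact absurd ⟨h4, h5⟩ hN
        · exact hg' l hl k hk h4 h5
  obtain ⟨g, hg, hg'⟩ := h1 (2 * j)
  refine ⟨min g (min (1 - b) (1 / 2)), lt_min hg (lt_min (by linarith) (by norm_num)),
    fun l hl i hi2 hPi => ?_⟩
  have h0 : 0 < l := ha.trans_le hl.1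
  have h1' : l < 1 := hl.2.trans_lt hb
  obtain ⟨hB, h2, -, h4⟩ := cap_formula m h0 h1'
  have hinv : 1 - b ≤ 1 / l - 1 := by
    rw [le_sub_iff_add_le, le_div_iff₀ h0]
    nlinarith [hl.2, sq_nonneg (1 - l)]
  have key : ∀ k, Ic l (ee0 m) (ee1 m) (k + 1) / Bc l (ee0 m) = QQ (m + 2) k l / l := fun k => by
    rw [div_eq_div_iff hB.ne' h0.ne', mul_comm, h2, mul_comm]
  rcases i with _ | k
  · refine ((min_le_right _ _).trans (min_le_left _ _)).trans (hinv.trans ?_)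
    refine le_trans (sub_le_sub_right ?_ 1) (le_abs_self _)
    rw [div_le_div_iff₀ h0 hB]
    linarith
  rw [key]
  rcases Nat.eq_zero_or_pos k with rfl | hk0
  · rw [QQ_zero]
    exact ((min_le_right _ _).trans (min_le_left _ _)).trans (hinv.trans (le_abs_self _))
  rcases lt_or_ge k (2 * j) with h5 | h5
  · have h6 := hg' l hl k h5 (by omega) hPi
    refine (min_le_left _ _).trans ?_
    rw [div_sub_one h0.ne', abs_div, abs_of_pos h0, le_div_iff₀ h0]
    nlinarith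
  · have h6 := (le_abs_self _).trans ((QQ_le_tl m h5 h0 h1').trans (ht l hl))
    refine ((min_le_right _ _).trans (min_le_right _ _)).trans (le_trans ?_ (neg_le_abs _))
    rw [neg_sub, le_sub_comm, div_le_iff₀ h0]
    linarith [hl.1]

end Pool.Agent.Lib.MP_5b78b3_gt.Rig
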