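import Mathlib
import Pool.Agent.Lib.MP_5b78b3_gt.Rig.Num

/-! The linearised operator is invertible up to quadratic forms. -/

namespace Pool.Agent.Lib.MP_5b78b3_gt.Rig

open MeasureTheory Metric Set

section Abs

variable {Y : Type*} [NormedAddCommGroup Y] [NormedSpace ℝ Y]
variable {B : Y →L[ℝ] Y →L[ℝ] ℝ} {V : ℕ → Submodule ℝ Y} {T : Y →L[ℝ] Y} {μ : ℕ → ℝ}

/-- the part of the second step of the filtration orthogonal to the first -/
def H2 (B : Y →L[ℝ] Y →L[ℝ] ℝ) (V : ℕ → Submodule ℝ Y) : Submodule ℝ Y where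
  carrier := {h | h ∈ V 2 ∧ ∀ v ∈ V 1, B h v = 0}
  add_mem' := fun hf hh => ⟨add_mem hf.1 hh.1, fun v hv => by
    rw [map_add, add_apply, hf.2 v hv, hh.2 v hv, add_zero]⟩
  zero_mem' := ⟨zero_mem _, fun v _ => by simp⟩
  smul_mem' := fun c f hf => ⟨Submodule.smul_mem _ _ hf.1, fun v hv => by
    rw [map_smul, smul_apply, hf.2 v hv, smul_zero]⟩

theorem l2 (H : SpecH B V T μ) (fd : ∀ n, FiniteDimensional ℝ (V n)) {g : ℝ} (hg : 0 < g)
    (h0 : g ≤ |μ 0 - 1|)
    (hgap : ∀ n : ℕ, n + 1 ≠ 2 → g ≤ |μ (n + 1) - 1| ∨ V (n + 1) ≤ V n) (n : ℕ) :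
    ∀ w ∈ V n, (∀ h ∈ H2 B V, B w h = 0) → g ^ 2 * B w w ≤ B (w - T w) (w - T w) := by
  have hsq : ∀ n : ℕ, g ≤ |μ n - 1| → g ^ 2 ≤ (1 - μ n) ^ 2 := by
    intro n a
    have h1 := pow_le_pow_left₀ hg.le a 2
    rw [sq_abs] at h1
    nlinarith
  induction n with
  | zero =>
    intro w hw _
    have e : w - T w = (1 - μ 0) • w := by rw [H.zero w hw, sub_smul, one_smul]
    rw [e, map_smul, map_smul, smul_apply, smul_eq_mul, smul_eq_mul,
      ← mul_assoc, ← sq]
    exact mul_le_mul_of_nonneg_right (hsq 0 h0) (specA_nonneg B H.Bp w)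
  | succ n ih =>
    intro w hw hwo
    obtain ⟨p, hp, ho⟩ := specA_proj B H.Bp (V n) w
    obtain ⟨h, rfl⟩ : ∃ h, w = h + p := ⟨w - p, by abel⟩
    rw [add_sub_cancel_right] at ho
    have hh : h ∈ V (n + 1) := by
      simpa using sub_mem hw (H.mono (Nat.le_succ n) hp)
    have hpo : ∀ q ∈ H2 B V, B p q = 0 := fun q hq => by
      rcases le_or_gt 2 n with hkn | hkn
      · have h1 := hwo q hq
        rwa [map_add, add_apply, ho q (H.mono hkn hq.1), zero_add] at h1
      · rw [H.Bs]; exact hq.2 p (H.mono (by omega) hp)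
    have hsq' : g ^ 2 * B h h ≤ (1 - μ (n + 1)) ^ 2 * B h h := by
      by_cases a : n + 1 = 2
      · have e : n = 1 := by omega
        subst e
        have h1 := hwo h ⟨hh, ho⟩
        rw [map_add, add_apply, hpo h ⟨hh, ho⟩, add_zero] at h1
        rw [h1]; simp
      rcases hgap n a with b | b
      · exact mul_le_mul_of_nonneg_right (hsq _ b) (specA_nonneg B H.Bp h)
      · rw [ho h (b hh)]; simp
    have e : h + p - T (h + p) = (1 - μ (n + 1)) • h + (p - T p) := by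
      rw [map_add, H.eig hh ho, sub_smul, one_smul]; abel
    have hq : B h (p - T p) = 0 := ho _ (sub_mem hp (H.maps n p hp))
    have hq' : B (p - T p) h = 0 := by rw [H.Bs, hq]
    have hr : B h p = 0 := ho p hp
    have hr' : B p h = 0 := by rw [H.Bs, hr]
    have ih' := ih p hp hpo
    rw [e]
    generalize p - T p = q at hq hq' ih'
    simp only [map_add, map_smul, add_apply, smul_apply,
      smul_eq_mul, hq, hq', hr, hr']
    nlinarith

theorem sup_bound (H : SpecH B V T μ) (fd : ∀ n, FiniteDimensional ℝ (V n)) {g : ℝ} (hg : 0 < g)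
    (h0 : g ≤ |μ 0 - 1|)
    (hgap : ∀ n : ℕ, n + 1 ≠ 2 → g ≤ |μ (n + 1) - 1| ∨ V (n + 1) ≤ V n) (h2 : μ 2 = 1) {M : ℝ}
    (hM : 0 ≤ M) (hbd : ∀ η, ‖T η‖ ≤ M * √(B η η)) {f : Y} (hf : f ∈ closure {p | ∃ n, p ∈ V n}) :
    ∃ h ∈ H2 B V, ‖f - h‖ ≤ (1 + M * √(specN B) / g) * ‖f - T f‖ := by
  have := fd 2
  have : FiniteDimensional ℝ (H2 B V) :=
    Submodule.finiteDimensional_of_le (S₂ := V 2) fun _ hh => hh.1
  have hT : ∀ h ∈ H2 B V, T h = h := fun h hh => by
    rw [H.eig (n := 1) hh.1 hh.2, h2, one_smul]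
  obtain ⟨h, hh, ho⟩ := specA_proj B H.Bp (H2 B V) f
  refine ⟨h, hh, ?_⟩
  set w := f - h with hw
  have e : f - T f = w - T w := by rw [hw, map_sub, hT h hh]; abel
  have key : ∀ p ∈ closure {p | ∃ n, p ∈ V n},
      g ^ 2 * (B (p - h) (p - h) - B (p - f) (p - f)) ≤ B (p - T p) (p - T p) := by
    have hcl : IsClosed {p : Y | g ^ 2 * (B (p - h) (p - h) - B (p - f) (p - f))
        ≤ B (p - T p) (p - T p)} := isClosed_le (by fun_prop) (by fun_prop)
    refine fun p hp => hcl.closure_subset_iff.2 ?_ hp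
    rintro p ⟨n, hn⟩
    obtain ⟨q, hq, hqo⟩ := specA_proj B H.Bp (H2 B V) p
    have h1 := l2 H fd hg h0 hgap (max n 2) (p - q)
      (sub_mem (H.mono (le_max_left _ _) hn) (H.mono (le_max_right _ _) hq.1)) hqo
    have e1 : p - q - T (p - q) = p - T p := by rw [map_sub, hT q hq]; abel
    rw [e1] at h1
    refine le_trans (mul_le_mul_of_nonneg_left ?_ (sq_nonneg g)) h1
    have hz := sub_mem hq hh
    have h3 := specA_nonneg B H.Bp (p - q - w)
    have a1 := hqo _ hz
    have a2 := ho _ hz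
    have e2 : p - h = (p - q) + (q - h) := by abel
    have e3 : p - f = (p - q - w) + (q - h) := by rw [hw]; abel
    have a3 : B (p - q - w) (q - h) = 0 := by
      rw [map_sub B (p - q) w, sub_apply, a1, a2, sub_zero]
    rw [e2, e3]
    generalize p - q - w = y at h3 a3
    generalize p - q = x at a1
    generalize q - h = z at a1 a3
    simp only [map_add, add_apply, H.Bs z x, H.Bs z y, a1, a3]
    linarith
  have h1 := key f hf
  rw [sub_self, map_zero, sub_zero, ← hw, e] at h1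
  rw [e]
  have h3 : B (w - T w) (w - T w) ≤ ‖B‖ * ‖w - T w‖ * ‖w - T w‖ :=
    (le_abs_self _).trans (B.le_opNorm₂ _ _)
  have h4 : √(B w w) ≤ √‖B‖ / g * ‖w - T w‖ := by
    apply Real.sqrt_le_iff.2 ⟨by positivity, ?_⟩
    rw [mul_pow, div_pow, Real.sq_sqrt B.opNorm_nonneg, div_mul_eq_mul_div,
      le_div_iff₀ (by positivity)]
    nlinarith
  have h5 : ‖T w‖ ≤ M * (√‖B‖ / g * ‖w - T w‖) :=
    (hbd w).trans (mul_le_mul_of_nonneg_left h4 hM)
  have h6 : ‖w‖ ≤ ‖w - T w‖ + ‖T w‖ := by simpa using norm_add_le (w - T w) (T w)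
  calc ‖w‖ ≤ ‖w - T w‖ + M * (√‖B‖ / g * ‖w - T w‖) := by linarith
    _ = _ := by rw [specN]; ring

end Abs

variable {d : ℕ}

/-- the antipodal map on functions -/
noncomputable def RR (d : ℕ) : X d →L[ℝ] X d := specR (LinearIsometryEquiv.neg ℝ)

lemma RR_lin (a : E d) (n : ℕ) : RR d (lin a ^ n) = (-lin a) ^ n := by
  rw [RR, specR_lin, LinearIsometryEquiv.symm_neg]
  exact congrArg (· ^ n) ((specL d).map_neg a)

lemma RR_RR (f : X d) : RR d (RR d f) = f := spec_neg_neg f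

/-- quadratic forms restricted to the sphere -/
def Quad (d : ℕ) : Submodule ℝ (X d) where
  carrier := {f | ∃ A : E d →L[ℝ] E d, (∀ x y, inner ℝ (A x) y = inner ℝ x (A y)) ∧
    ∀ v : S d, f v = inner ℝ (v : E d) (A v)}
  add_mem' := by
    rintro f h ⟨A, a1, a2⟩ ⟨B, b1, b2⟩
    exact ⟨A + B, fun x y => by simp [inner_add_left, inner_add_right, a1, b1],
      fun v => by simp [inner_add_right, a2, b2]⟩
  zero_mem' := ⟨0, by simp, by simp⟩
  smul_mem' := by
    rintro c f ⟨A, a1, a2⟩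
    exact ⟨c • A, fun x y => by simp [inner_smul_left, inner_smul_right, a1],
      fun v => by simp [inner_smul_right, a2]⟩

lemma one_mem_Quad : (1 : X d) ∈ Quad d :=
  ⟨1, fun _ _ => rfl, fun v => (inner_S_self v).symm⟩

lemma even_mem_Quad {h : X d} (hh : h ∈ PP d 2) (he : RR d h = h) : h ∈ Quad d := by
  have h1 := spec_map (n := 2) (ContinuousLinearMap.id ℝ (X d) + RR d) (Quad d) (fun a j hj => by
    change lin a ^ j + RR d (lin a ^ j) ∈ _
    rw [RR_lin]
    interval_cases j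
    · simpa using add_mem one_mem_Quad one_mem_Quad
    · simp
    · have : lin a ^ 2 ∈ Quad d := ⟨(innerSL ℝ a).smulRight a, fun x y => by
        simp [inner_smul_left, inner_smul_right, real_inner_comm, mul_comm], fun v => by
        simp [lin, inner_smul_right, real_inner_comm, sq]⟩
      rw [neg_sq]
      exact add_mem this this) h hh
  change h + RR d h ∈ _ at h1
  have h2 := (Quad d).smul_mem (1 / 2 : ℝ) h1
  rwa [he, ← two_smul ℝ h, smul_smul, one_div_mul_cancel two_ne_zero, one_smul] at h2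

lemma odd_part {h : X d} (hh : h ∈ PP d 2) : h - RR d h ∈ PP d 1 :=
  spec_map (n := 2) (ContinuousLinearMap.id ℝ (X d) - RR d) (PP d 1) (fun a j hj => by
    change lin a ^ j - RR d (lin a ^ j) ∈ _
    rcases hj.eq_or_lt with rfl | hj
    · rw [RR_lin, neg_sq, sub_self]; exact zero_mem _
    · have h1 : lin a ^ j ∈ PP d 1 := spec_gen a (by omega)
      exact sub_mem h1 (specR_PP _ 1 _ h1)) h hh

/-- all functions, or the even functions -/
def II (d : ℕ) (s : Prop) : Submodule ℝ (X d) where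
  carrier := {f | s → RR d f = f}
  add_mem' := fun hf hh hs => by rw [map_add, hf hs, hh hs]
  zero_mem' := fun _ => map_zero _
  smul_mem' := fun c f hf hs => by rw [map_smul, hf hs]

theorem quad_bound (m : ℕ) (s : Prop) {a b B r : ℝ} (c : Ctx (m + 2) a b B r)
    (h : ∀ l ∈ Icc a b, ∀ k, 2 ≤ k → (s → Odd k) → QQ (m + 2) k l ≠ l) :
    ∃ C > 0, ∀ l ∈ Icc a b, ∀ T : X (m + 2) →L[ℝ] X (m + 2), IsT l T → ∀ f ∈ II (m + 2) s, ∀ t : ℝ,
      ∃ q ∈ Quad (m + 2), ‖f - q‖ ≤ C * ‖f - T f + t • 1‖ := by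
  obtain ⟨g, hg, hgap⟩ := gap m c.ha c.hb (fun i => s → Even i)
    (fun l hl k hk hP => h l hl k hk fun hs => by simpa [Nat.even_add_one] using hP hs)
  have hB := c.hB
  refine ⟨1 + √((sig (m + 2)).real univ) / B * √(specN (specB (m + 2))) / g, by positivity,
    fun l hl T hT f hf t => ?_⟩
  have h0 : 0 < l := c.ha.trans_le hl.1
  have h1 : l < 1 := hl.2.trans_lt c.hb
  set μ : ℕ → ℝ := fun i => Ic l (ee0 m) (ee1 m) i / Bc l (ee0 m) with hμ
  let V : ℕ → Submodule ℝ (X (m + 2)) := fun n => PP (m + 2) n ⊓ II (m + 2) s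
  have fd : ∀ n, FiniteDimensional ℝ (V n) := fun n => by
    have := spec_fd (d := m + 2) n
    exact Submodule.finiteDimensional_inf_left _ _
  have Vmono : Monotone V := fun a b h => inf_le_inf_right _ (spec_mono h)
  have hone : T 1 = μ 0 • 1 := T_one hT (ee1 m) (norm_ee0 m)
  have htri : ∀ a n, T (lin a ^ (n + 1)) - μ (n + 1) • lin a ^ (n + 1) ∈ PP (m + 2) n :=
    T_tri hT (norm_ee0 m) (norm_ee1 m) (inner_ee m)
  have hz : ∀ h ∈ PP (m + 2) 0, T h = μ 0 • h := by
    intro h hh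
    rw [← sub_eq_zero]
    refine spec_map (T - μ 0 • ContinuousLinearMap.id ℝ _) ⊥ (fun a j hj => ?_) h hh
    obtain rfl : j = 0 := by omega
    change T (lin a ^ 0) - μ 0 • lin a ^ 0 = 0
    rw [pow_zero, hone, sub_self]
  have hgen : ∀ (a : E (m + 2)) j n, j ≤ n → T (lin a ^ j) ∈ PP (m + 2) n := by
    intro a j n hj
    cases j with
    | zero =>
      rw [hz _ (spec_gen a le_rfl)]
      exact Submodule.smul_mem _ _ (spec_gen a hj)
    | succ j =>
      have h1 := add_mem (spec_mono (show j ≤ n by omega) (htri a j))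
        (Submodule.smul_mem _ (μ (j + 1)) (spec_gen a hj))
      rwa [sub_add_cancel] at h1
  have H : SpecH (specB (m + 2)) V T μ := by
    refine ⟨specB_symm, specB_pos, Vmono, fun h hh => hz h hh.1, fun n h hh => ⟨?_, ?_⟩,
      T_symm hT⟩
    · refine spec_map (T - μ (n + 1) • ContinuousLinearMap.id ℝ _) _ (fun a j hj => ?_) h hh.1
      change T (lin a ^ j) - μ (n + 1) • lin a ^ j ∈ _
      rcases hj.eq_or_lt with rfl | hj
      · exact htri a n
      · exact sub_mem (hgen a j n (by omega)) (Submodule.smul_mem _ _ (spec_gen a (by omega)))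
    · refine sub_mem (fun hs => ?_) (Submodule.smul_mem _ _ hh.2)
      have := hh.2 hs
      rw [RR, specR_apply] at this ⊢
      rw [← T_rot hT, this]
  have hg0 : g ≤ |μ 0 - 1| := hgap l hl 0 (by omega) fun _ => by simp
  have hμ0 : 1 - μ 0 ≠ 0 := fun e => by
    rw [show μ 0 - 1 = -(1 - μ 0) by ring, e] at hg0
    simp at hg0; linarith
  have hμ2 : μ 2 = 1 := by
    obtain ⟨hB0, h2, -, -⟩ := cap_formula m h0 h1
    have h3 := h2 1
    rw [QQ_one, mul_comm _ l] at h3
    rw [hμ]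
    exact (div_eq_one_iff_eq hB0.ne').2 (mul_left_cancel₀ h0.ne' h3)
  have h1I : (1 : X (m + 2)) ∈ II (m + 2) s := fun _ => rfl
  have hd : ∀ w ∈ II (m + 2) s, w ∈ closure {p | ∃ n, p ∈ V n} := by
    intro w hw
    by_cases hs : s
    · have h2 := map_mem_closure ((1 / 2 : ℝ) • (ContinuousLinearMap.id ℝ _ + RR (m + 2))).continuous
        (spec_dense w) (t := {p | ∃ n, p ∈ V n}) (fun p ⟨n, hn⟩ => ⟨n,
          Submodule.smul_mem _ _ (add_mem hn (specR_PP _ n p hn)), fun _ => by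
            change RR _ ((1 / 2 : ℝ) • (p + RR _ p)) = (1 / 2 : ℝ) • (p + RR _ p)
            rw [map_smul, map_add, RR_RR, add_comm p]⟩)
      change (1 / 2 : ℝ) • (w + RR _ w) ∈ _ at h2
      rwa [hw hs, ← two_smul ℝ w, smul_smul, one_div_mul_cancel two_ne_zero, one_smul] at h2
    · refine closure_mono ?_ (spec_dense w)
      rintro p ⟨n, hn⟩
      exact ⟨n, hn, fun h' => absurd h' hs⟩
  obtain ⟨q, hq, hq'⟩ := sup_bound H fd hg hg0 (fun n hn => by
      by_cases hP : s → Even (n + 1)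
      · exact Or.inl (hgap l hl _ hn hP)
      · push Not at hP
        refine Or.inr fun p hp => ⟨?_, hp.2⟩
        have h2 := (PP (m + 2) n).smul_mem (1 / 2 : ℝ)
          (spec_odd (Nat.not_even_iff_odd.1 hP.2) p hp.1)
        change (1 / 2 : ℝ) • (p + RR _ p) ∈ _ at h2
        rwa [hp.2 hP.1, ← two_smul ℝ p, smul_smul, one_div_mul_cancel two_ne_zero,
          one_smul] at h2) hμ2 (M := √((sig (m + 2)).real univ) / B) (by positivity)
    (fun η => by
      simpa only [specB_apply, sq] using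
        T_bound hT (norm_ee0 m) hB (c.low l hl ⟨ee0 m, by simp [norm_ee0]⟩) η)
    (hd (f + (t / (1 - μ 0)) • 1) (add_mem hf (Submodule.smul_mem _ _ h1I)))
  have hqe : RR (m + 2) q = q := by
    by_cases hs : s
    · exact hq.1.2 hs
    have h2 : q - RR _ q ∈ V 1 := ⟨odd_part hq.1.1, fun h' => absurd h' hs⟩
    have h3 := hq.2 _ h2
    have h4 : specB _ (RR _ q) (RR _ (q - RR _ q)) = specB _ q (q - RR _ q) := specB_rot _ _ _
    rw [h3, map_sub (RR _), RR_RR, ← neg_sub, map_neg, neg_eq_zero] at h4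
    rw [eq_comm, ← sub_eq_zero]
    apply specA_zero _ specB_pos
    rw [map_sub (specB _), sub_apply, h3, h4, sub_zero]
  refine ⟨q - (t / (1 - μ 0)) • 1,
    sub_mem (even_mem_Quad hq.1.1 hqe) (Submodule.smul_mem _ _ one_mem_Quad), ?_⟩
  have e1 : f - (q - (t / (1 - μ 0)) • 1) = f + (t / (1 - μ 0)) • 1 - q := by abel
  have e2 : f + (t / (1 - μ 0)) • 1 - T (f + (t / (1 - μ 0)) • 1) = f - T f + t • 1 := by
    have : t • (1 : X (m + 2)) = (t / (1 - μ 0)) • 1 - (t / (1 - μ 0) * μ 0) • 1 := by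
      rw [← sub_smul]; congr 1; field_simp
    rw [map_add, map_smul, hone, smul_smul, this]; abel
  rw [e1, ← e2]
  exact hq'

lemma quad_norm {A : E d →L[ℝ] E d} (hA : ∀ x y, inner ℝ (A x) y = inner ℝ x (A y)) {σ : ℝ}
    (h : ∀ v : S d, |inner ℝ (v : E d) (A v)| ≤ σ) (v : S d) : ‖A v‖ ≤ σ := by
  have hd := capdiv_pos (norm_S v)
  have h1 : ∀ y : E d, |inner ℝ y (A y)| ≤ σ * ‖y‖ ^ 2 := fun y => by
    obtain ⟨u, hu⟩ := exists_polar hd y
    have : inner ℝ y (A y) = ‖y‖ ^ 2 * inner ℝ (u : E d) (A u) := by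
      conv_lhs => rw [hu, map_smul, inner_smul_left, inner_smul_right]
      simp [sq, mul_assoc]
    rw [this, abs_mul, abs_of_nonneg (sq_nonneg _), mul_comm]
    exact mul_le_mul_of_nonneg_right (h u) (sq_nonneg _)
  obtain ⟨z, hz⟩ := exists_polar hd (A v)
  have h2 : inner ℝ (z : E d) (A v) = ‖A v‖ := by
    conv_lhs => rw [hz, inner_smul_right, inner_S_self, mul_one]
  have h3 := (abs_le.1 (h1 ((v : E d) + z))).2
  have h4 := (abs_le.1 (h1 ((v : E d) - z))).1
  have h5 := parallelogram_law_with_norm ℝ (v : E d) (z : E d)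
  have h6 : inner ℝ (v : E d) (A z) = ‖A v‖ := by rw [← hA, real_inner_comm, h2]
  simp only [map_add, map_sub, inner_add_left, inner_add_right, inner_sub_left, inner_sub_right,
    h2, h6] at h3 h4
  rw [norm_S, norm_S] at h5
  have h7 : σ * ‖(v : E d) + z‖ ^ 2 + σ * ‖(v : E d) - z‖ ^ 2 = 4 * σ := by
    rw [← mul_add]; simp only [sq] at h5 ⊢; rw [h5]; ring
  linarith

end Pool.Agent.Lib.MP_5b78b3_gt.Rig
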