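import Mathlib
import Pool.Agent.Lib.MP_5b78b3_gt.Rig.Spec

/-! The floating body of a convex body close to the ball. -/

namespace Pool.Agent.Lib.MP_5b78b3_gt.Rig

open MeasureTheory Metric Set

variable {d : ℕ}

/-- the convex floating body -/
def fl (K : Set (E d)) (δ : ℝ) : Set (E d) :=
  ⋂ (u : E d) (t : ℝ) (_ : u ≠ 0)
    (_ : volume (K \ {y | inner ℝ u y ≤ t}) ≤ ENNReal.ofReal δ), {y : E d | inner ℝ u y ≤ t}

lemma mem_fl {K : Set (E d)} {δ : ℝ} {y : E d} : y ∈ fl K δ ↔ ∀ (u : E d) (t : ℝ), u ≠ 0 →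
    volume (K \ {y | inner ℝ u y ≤ t}) ≤ ENNReal.ofReal δ → inner ℝ u y ≤ t := by
  simp only [fl, mem_iInter, mem_ofPred_eq]

lemma fl_anti (K : Set (E d)) {δ δ' : ℝ} (h : δ ≤ δ') : fl K δ' ⊆ fl K δ := fun _ hy =>
  mem_fl.2 fun u t hu hv => mem_fl.1 hy u t hu (hv.trans (ENNReal.ofReal_le_ofReal h))

lemma aff_eq (A : E d ≃ᵃ[ℝ] E d) (x : E d) : A x = A.linear x + A 0 := by
  simpa using A.map_vadd 0 x

lemma aff_half (A : E d ≃ᵃ[ℝ] E d) {u : E d} (hu : u ≠ 0) (t : ℝ) :
    ∃ (u' : E d) (t' : ℝ), u' ≠ 0 ∧ ∀ x, inner ℝ u (A x) ≤ t ↔ inner ℝ u' x ≤ t' := by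
  refine ⟨LinearMap.adjoint (A.linear : E d →ₗ[ℝ] E d) u, t - inner ℝ u (A 0), fun h => hu ?_,
    fun x => ?_⟩
  · have := LinearMap.adjoint_inner_left (A.linear : E d →ₗ[ℝ] E d) (A.linear.symm u) u
    rw [h, inner_zero_left] at this
    simpa using this.symm
  · rw [LinearMap.adjoint_inner_left, aff_eq, inner_add_right, le_sub_iff_add_le]
    rfl

theorem fl_affine (A : E d ≃ᵃ[ℝ] E d) :
    ∃ D > 0, ∀ (K : Set (E d)) (δ : ℝ), fl (A '' K) (D * δ) = A '' fl K δ := by
  set D := |LinearMap.det (A.linear : E d →ₗ[ℝ] E d)| with hD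
  have hD0 : 0 < D := abs_pos.2 A.linear.isUnit_det'.ne_zero
  have hv : ∀ s : Set (E d), volume (A '' s) = ENNReal.ofReal D * volume s := fun s => by
    have : A '' s = (fun y => y + A 0) '' ((A.linear : E d →ₗ[ℝ] E d) '' s) := by
      rw [image_image]
      exact image_congr fun x _ => aff_eq A x
    rw [this, image_add_right, measure_preimage_add_right, Measure.addHaar_image_linearMap]
  have key : ∀ (K : Set (E d)) (δ : ℝ) (u u' : E d) (t t' : ℝ),
      (∀ x, inner ℝ u (A x) ≤ t ↔ inner ℝ u' x ≤ t') →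
      (volume (A '' K \ {y | inner ℝ u y ≤ t}) ≤ ENNReal.ofReal (D * δ) ↔
        volume (K \ {y | inner ℝ u' y ≤ t'}) ≤ ENNReal.ofReal δ) := by
    intro K δ u u' t t' h
    have : A '' K \ {y | inner ℝ u y ≤ t} = A '' (K \ {y | inner ℝ u' y ≤ t'}) := by
      ext y
      obtain ⟨x, rfl⟩ := A.surjective y
      simp only [mem_sdiff, A.injective.mem_set_image, mem_ofPred_eq, h]
    rw [this, hv, ENNReal.ofReal_mul hD0.le,
      ENNReal.mul_le_mul_iff_right (by simpa using hD0) ENNReal.ofReal_ne_top]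
  refine ⟨D, hD0, fun K δ => ?_⟩
  ext y
  obtain ⟨x, rfl⟩ := A.surjective y
  rw [A.injective.mem_set_image, mem_fl, mem_fl]
  constructor
  · intro h u' t' hu' hvol
    obtain ⟨u, t, hu, e⟩ := aff_half A.symm hu' t'
    have e' : ∀ x, inner ℝ u (A x) ≤ t ↔ inner ℝ u' x ≤ t' := fun x => by
      rw [← e, A.symm_apply_apply]
    exact (e' x).1 (h u t hu ((key K δ u u' t t' e').2 hvol))
  · intro h u t hu hvol
    obtain ⟨u', t', hu', e⟩ := aff_half A hu t
    exact (e x).2 (h u' t' hu' ((key K δ u u' t t' e).1 hvol))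

lemma aff_hom (A : E d ≃ᵃ[ℝ] E d) (K : Set (E d)) (c : ℝ) (x : E d) :
    A '' ((fun y => c • y + x) '' K) = (fun y => c • y + (A x - c • A 0)) '' (A '' K) := by
  rw [image_image, image_image]
  refine image_congr fun y _ => ?_
  rw [aff_eq A (c • y + x), aff_eq A y, aff_eq A x, map_add, map_smul]
  module

theorem float_formula {a b B r : ℝ} (c : Ctx d a b B r) :
    ∃ r1 > 0, ∀ l ∈ Icc a b, ∀ p : X d, ‖p - 1‖ ≤ r1 → IsClosed (body p) → ∀ e : S d,
      fl (body p) (FF l 1 1 (e : E d) / d)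
        = (fun y => l • y + (0 : E d)) '' body (Psi l p) := by
  have hr := c.hr
  have hr4 := c.hr4
  have hB := c.hB
  have hd := c.hd
  have hd' : (0 : ℝ) < d := by exact_mod_cast hd
  have hσ : 0 ≤ (sig d).real univ := measureReal_nonneg
  refine ⟨min r (r / 2 * B / 2 / ((sig d).real univ + 1)), by positivity, fun l hl p hp hclosed e => ?_⟩
  have h0 : 0 < l := c.ha.trans_le hl.1
  have h1 : l < 1 := hl.2.trans_lt c.hb
  have hp1 : ‖p - 1‖ ≤ r := hp.trans (min_le_left _ _)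
  have hp2 : ‖p - 1‖ * (sig d).real univ ≤ r / 2 * B / 2 := by
    have := hp.trans (min_le_right _ _)
    rw [le_div_iff₀ (by positivity)] at this
    nlinarith [norm_nonneg (p - 1)]
  have s := kk_spec c hl (by positivity) (half_lt_self hr) hp1 hp2
  obtain ⟨hc, hP⟩ := Psi_apply c hl (by positivity) (half_lt_self hr) hp1 hp2
  set k : S d → ℝ := fun u => kk l p (u : E d) with hk
  have hk1 : ∀ u, 3 / 4 < k u := fun u => by linarith [(abs_le.1 (s u).1).1]
  have hk0 : ∀ u, 0 < k u := fun u => by linarith [hk1 u]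
  have hq0 : ∀ v, 0 ≤ Psi l p v := fun v => by
    obtain ⟨u, hu, -⟩ := HH_spec hc v
    rw [hP, hu]
    exact (mul_pos (hk0 u) (hh_pos _)).le
  have hbody : body (Psi l p) = ⋂ u : S d, {y : E d | inner ℝ (u : E d) y ≤ rt d (k u)} := by
    ext y
    obtain ⟨v, hv⟩ := exists_polar hd y
    rw [hv, mem_body hd hq0 v (norm_nonneg y), mem_iInter, hP]
    simp only [mem_ofPred_eq, inner_smul_right]
    obtain ⟨u, hu, hu'⟩ := HH_spec hc v
    constructor
    · intro h w
      have h2 := h.trans (hu' w)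
      have hm : (0 : ℝ) < max (inner ℝ (w : E d) (v : E d)) (1 / 2) :=
        lt_of_lt_of_le (by norm_num) (le_max_right _ _)
      unfold hh at h2
      rw [← rt_pow hd (hk0 w).le, ← mul_pow,
        pow_le_pow_iff_left₀ (norm_nonneg y) (by have := rt_pos (d := d) (hk0 w); positivity) hd.ne',
        ← div_eq_mul_inv, le_div_iff₀ hm] at h2
      exact le_trans (mul_le_mul_of_nonneg_left (le_max_left _ _) (norm_nonneg y)) h2
    · intro h
      have l1 := HH_min_loc hd (ρ := r / 2) (ε := 1 / 2) (by linarith) le_rfl (by linarith)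
        (fun w => (s w).1) (hu ▸ hu' v)
      have h2 : 1 / 2 ≤ inner ℝ (u : E d) (v : E d) := by linarith [l1.2]
      rw [hu, hh_of_ge h2, ← rt_pow hd (hk0 u).le, ← mul_pow]
      refine pow_le_pow_left₀ (norm_nonneg y) ?_ d
      rw [← div_eq_mul_inv, le_div_iff₀ (by linarith)]
      exact h u
  have hFF : ∀ u : S d, FF l 1 1 (u : E d) = FF l (1 : X d) 1 (e : E d) :=
    fun u => FF_one_eq l (by rw [norm_S, norm_S])
  have hcut := fun t ht ht' u =>
    volume_cut hd h0 (hp1.trans hr4) hclosed.measurableSet (t := t) ht ht' u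
  ext y
  simp only [fl, mem_iInter, mem_ofPred_eq, add_zero, mem_image]
  constructor
  · intro h
    refine ⟨l⁻¹ • y, ?_, by rw [smul_smul, mul_inv_cancel₀ h0.ne', one_smul]⟩
    rw [hbody, mem_iInter]
    intro u
    have hu0 : (u : E d) ≠ 0 := by
      intro h'
      have := norm_S u
      rw [h', norm_zero] at this
      exact zero_ne_one this
    have h2 := h u (l * rt d (k u)) hu0 (by
      rw [hcut _ (rt_pos (hk0 u)) (by rw [rt_pow hd (hk0 u).le]; exact (hk1 u).le),
        rt_pow hd (hk0 u).le, (s u).2.1, hFF])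
    simp only [mem_ofPred_eq, inner_smul_right]
    rw [← div_eq_inv_mul, div_le_iff₀ h0, mul_comm]
    exact h2
  · rintro ⟨x, hx, rfl⟩ w τ hw hvol
    obtain ⟨u, hu⟩ := exists_polar hd w
    have hw0 : 0 < ‖w‖ := norm_pos_iff.2 hw
    have hset : {y : E d | inner ℝ w y ≤ τ} = {y : E d | inner ℝ (u : E d) y ≤ τ / ‖w‖} := by
      ext z
      simp only [mem_ofPred_eq]
      rw [le_div_iff₀ hw0]
      conv_lhs => rw [hu, inner_smul_left]
      simp [mul_comm]
    have hx' : inner ℝ (u : E d) x ≤ rt d (k u) := by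
      rw [hbody, mem_iInter] at hx
      exact hx u
    have hkey : l * rt d (k u) ≤ τ / ‖w‖ := by
      by_contra hlt
      push Not at hlt
      have h34 : 0 < rt d (3 / 4) := rt_pos (by norm_num)
      set t1 := max (τ / ‖w‖ / l) (rt d (3 / 4)) with ht1
      have ht10 : 0 < t1 := h34.trans_le (le_max_right _ _)
      have h3 : t1 < rt d (k u) := by
        refine max_lt (by rw [div_lt_iff₀ h0]; linarith) ?_
        refine lt_of_pow_lt_pow_left₀ d (rt_pos (hk0 u)).le ?_
        rw [rt_pow hd (by norm_num), rt_pow hd (hk0 u).le]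
        exact hk1 u
      have h4 : t1 ^ d < k u := by
        rw [← rt_pow hd (hk0 u).le]
        exact pow_lt_pow_left₀ h3 ht10.le hd.ne'
      have h5 : 3 / 4 ≤ t1 ^ d := by
        rw [← rt_pow hd (x := 3 / 4) (by norm_num)]
        exact pow_le_pow_left₀ h34.le (le_max_right _ _) d
      have h6 := (s u).2.2 _ h4
      have h7 : volume (body p \ {y | inner ℝ (u : E d) y ≤ l * t1})
          ≤ volume (body p \ {y | inner ℝ w y ≤ τ}) := by
        rw [hset]
        refine measure_mono (sdiff_subset_sdiff_right fun z hz => ?_)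
        have := le_max_left (τ / ‖w‖ / l) (rt d (3 / 4))
        rw [div_le_iff₀ h0] at this
        have hz' : inner ℝ (u : E d) z ≤ τ / ‖w‖ := hz
        show inner ℝ (u : E d) z ≤ l * t1
        linarith
      rw [hcut _ ht10 h5] at h7
      have h8 := h7.trans hvol
      rw [ENNReal.ofReal_le_ofReal_iff (div_pos (FF_pos hd h0 h1 e) hd').le,
        div_le_div_iff_of_pos_right hd', ← hFF u] at h8
      linarith
    have : l • x ∈ {y : E d | inner ℝ w y ≤ τ} := by
      rw [hset]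
      simp only [mem_ofPred_eq, inner_smul_right]
      exact le_trans (mul_le_mul_of_nonneg_left hx' h0.le) hkey
    exact this

lemma exists_body (hd : 0 < d) {K : Set (E d)} (hK : IsClosed K) (hc : Convex ℝ K) {ε : ℝ}
    (hε : ε ≤ 1 / 2) (h1 : closedBall 0 (1 - ε) ⊆ K) (h2 : K ⊆ closedBall 0 (1 + ε)) :
    ∃ p : X d, K = body p ∧ ‖p - 1‖ ≤ d * 2 ^ d * ε ∧ ((∀ y ∈ K, -y ∈ K) → RR d p = p) := by
  have hn : K ∈ nhds (0 : E d) := Filter.mem_of_superset (closedBall_mem_nhds _ (by linarith)) h1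
  have hm : ∀ (v : S d) (r : ℝ), 0 ≤ r → (r • (v : E d) ∈ K ↔ r * gauge K (v : E d) ≤ 1) := by
    intro v r hr
    rw [← smul_eq_mul, ← gauge_smul_of_nonneg hr, gauge_le_one_iff_mem_closure hc hn,
      hK.closure_eq]
  have hup : ∀ (v : S d) (r : ℝ), 0 ≤ r → r * gauge K (v : E d) ≤ 1 → r ≤ 1 + ε := fun v r hr h => by
    have := h2 ((hm v r hr).2 h)
    rwa [mem_closedBall_zero_iff, norm_smul, norm_S, mul_one, Real.norm_of_nonneg hr] at this
  have hg : ∀ v : S d, 0 < gauge K (v : E d) := fun v => by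
    refine (gauge_nonneg _).lt_of_ne' fun h => ?_
    have := hup v 2 (by norm_num) (by rw [h]; norm_num)
    linarith
  have hb : ∀ v : S d, |(gauge K (v : E d))⁻¹ - 1| ≤ ε := fun v => by
    have a1 := hup v _ (inv_pos.2 (hg v)).le (inv_mul_cancel₀ (hg v).ne').le
    have a2 := (hm v (1 - ε) (by linarith)).1 (h1 (by
      rw [mem_closedBall_zero_iff, norm_smul, norm_S, mul_one, Real.norm_of_nonneg (by linarith)]))
    rw [← le_div_iff₀ (hg v), one_div] at a2
    rw [abs_le]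
    constructor <;> linarith
  obtain ⟨e, -⟩ := exists_polar hd 0
  have hε0 : 0 ≤ ε := (abs_nonneg _).trans (hb e)
  let p : X d := ⟨fun v => (gauge K (v : E d))⁻¹ ^ d,
    (((continuous_gauge hc hn).comp continuous_subtype_val).inv₀ fun v => (hg v).ne').pow d⟩
  have hp : ∀ v, p v = (gauge K (v : E d))⁻¹ ^ d := fun _ => rfl
  refine ⟨p, ?_, ?_, fun hs => ?_⟩
  · ext y
    obtain ⟨v, hv⟩ := exists_polar hd y
    have := hg v
    rw [hv, mem_body hd (fun v => by have := hg v; rw [hp]; positivity) v (norm_nonneg y),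
      hm v _ (norm_nonneg y), hp, pow_le_pow_iff_left₀ (norm_nonneg y) (by positivity) hd.ne',
      ← le_div_iff₀ this, one_div]
  · rw [ContinuousMap.norm_le _ (by positivity)]
    intro v
    have a1 := abs_pow_sub_pow_le (gauge K (v : E d))⁻¹ 1 d
    have a2 := hb v
    have a3 : max |(gauge K (v : E d))⁻¹| |1| ≤ 2 := by
      refine max_le ?_ (by norm_num)
      rw [abs_of_pos (inv_pos.2 (hg v))]
      linarith [(abs_le.1 a2).2]
    have a4 : max |(gauge K (v : E d))⁻¹| |1| ^ (d - 1) ≤ 2 ^ d :=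
      (pow_le_pow_left₀ (by positivity) a3 _).trans (pow_le_pow_right₀ one_le_two (by omega))
    rw [one_pow] at a1
    change |(gauge K (v : E d))⁻¹ ^ d - 1| ≤ _
    calc _ ≤ _ := a1
      _ ≤ ε * d * 2 ^ d := by gcongr
      _ = _ := by ring
  · ext v
    change (gauge K (-(v : E d)))⁻¹ ^ d = _
    rw [gauge_neg hs, hp]

lemma hom_ball {K : Set (E d)} {c r1 r2 : ℝ} (hc : 0 < c) (x : E d) (h1 : closedBall 0 r1 ⊆ K)
    (h2 : K ⊆ closedBall 0 r2) : closedBall x (c * r1) ⊆ (fun y => c • y + x) '' K ∧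
      (fun y => c • y + x) '' K ⊆ closedBall x (c * r2) := by
  constructor
  · intro y hy
    refine ⟨c⁻¹ • (y - x), h1 ?_, by simp [smul_smul, hc.ne']⟩
    rw [mem_closedBall_iff_norm] at hy
    rw [mem_closedBall_zero_iff, norm_smul, norm_inv, Real.norm_of_nonneg hc.le,
      inv_mul_le_iff₀ hc]
    exact hy
  · rintro _ ⟨y, hy, rfl⟩
    have := mem_closedBall_zero_iff.1 (h2 hy)
    rw [mem_closedBall_iff_norm, add_sub_cancel_right, norm_smul, Real.norm_of_nonneg hc.le]
    gcongr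

lemma ball_sub (hd : 0 < d) {x y : E d} {R R' : ℝ} (hR : 0 ≤ R)
    (h : closedBall x R ⊆ closedBall y R') : R + ‖x - y‖ ≤ R' := by
  obtain ⟨v, hv⟩ := exists_polar hd (x - y)
  have h1 := h (a := x + R • (v : E d)) (by
    rw [mem_closedBall_iff_norm, add_sub_cancel_left, norm_smul, norm_S, mul_one,
      Real.norm_of_nonneg hR])
  have e : x + R • (v : E d) - y = (R + ‖x - y‖) • (v : E d) := by
    rw [add_smul, ← hv]; abel
  rwa [mem_closedBall_iff_norm, e, norm_smul, norm_S, mul_one,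
    Real.norm_of_nonneg (by positivity)] at h1

lemma T_norm {a b B r : ℝ} (c : Ctx d a b B r) {l : ℝ} (hl : l ∈ Icc a b) {T : X d →L[ℝ] X d}
    (hT : IsT l T) (η : X d) : ‖T η‖ ≤ (sig d).real univ / B * ‖η‖ := by
  have hB := c.hB
  rw [ContinuousMap.norm_le _ (by positivity)]
  intro u
  have h1 := c.low l hl u
  rw [hT, Real.norm_eq_abs, abs_div, abs_of_pos (hB.trans_le h1)]
  calc _ ≤ ‖η‖ * (sig d).real univ / B := by
        gcongr
        exact abs_cap_le η l u
    _ = _ := by ring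

theorem locate {a b B r a' b' : ℝ} (c : Ctx d a b B r) (ha : a < a') (hb : b' < b) :
    ∃ ε1 > 0, ε1 ≤ 1 / 2 ∧ ∃ M > 0, ∀ ε ≤ ε1, ∀ K : Set (E d), IsClosed K → Convex ℝ K →
      closedBall 0 (1 - ε) ⊆ K → K ⊆ closedBall 0 (1 + ε) → ∀ (δ : ℝ) (x : E d), ∀ γ ∈ Icc a' b',
      fl K δ = (fun y => γ • y + x) '' K → ‖x‖ ≤ M * ε ∧ ∃ p : X d, ∃ l ∈ Icc a b, K = body p ∧
        ‖p - 1‖ ≤ M * ε ∧ ‖Psi l p - 1‖ ≤ M * ε ∧ ((∀ y ∈ K, -y ∈ K) → RR d p = p) ∧
        (fun y => l • y + (0 : E d)) '' body (Psi l p) = (fun y => γ • y + x) '' K := by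
  have hd := c.hd
  have hB := c.hB
  have ha0 := c.ha
  have hb1 := c.hb
  obtain ⟨r1, hr1, hfl⟩ := float_formula c
  obtain ⟨r2, hr2, hsd⟩ := strict_diff c one_pos
  set D : ℝ := d * 2 ^ d with hD
  have hD1 : 1 ≤ D := one_le_mul_of_one_le_of_one_le (by exact_mod_cast hd) (one_le_pow₀ one_le_two)
  set M : ℝ := ((sig d).real univ / B + 1) * D + 1 with hM
  have hσ : 0 ≤ (sig d).real univ / B := by positivity
  have hMD : D + 1 ≤ M := by nlinarith
  set η := min (min r1 r2) (min (1 / 2) (min (a' - a) (b - b') / 3)) with hη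
  have hη0 : 0 < η := lt_min (lt_min hr1 hr2) (lt_min (by norm_num)
    (div_pos (lt_min (by linarith) (by linarith)) (by norm_num)))
  have hη1 : η ≤ 1 / 2 := (min_le_right _ _).trans (min_le_left _ _)
  have hη2 : η ≤ min (a' - a) (b - b') / 3 := (min_le_right _ _).trans (min_le_right _ _)
  have hη3 := min_le_left (a' - a) (b - b')
  have hη4 := min_le_right (a' - a) (b - b')
  refine ⟨η / M, by positivity, (div_le_self hη0.le (by linarith)).trans hη1, M, by linarith,
    fun ε hε K hK hc h1 h2 δ x γ hγ h => ?_⟩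
  rw [le_div_iff₀ (by linarith)] at hε
  have hγ0 : 0 < γ := by linarith [hγ.1]
  have hγ1 : γ < 1 := by linarith [hγ.2]
  have hε0 : 0 ≤ ε := by
    by_contra h3
    have := ball_sub hd (by linarith) (h1.trans h2)
    simp only [sub_self, norm_zero] at this
    linarith
  have hε1 : ε ≤ η := by nlinarith
  obtain ⟨p, rfl, hp, hs⟩ := exists_body hd hK hc (hε1.trans hη1) h1 h2
  have hpM : ‖p - 1‖ ≤ M * ε := hp.trans (by nlinarith)
  have hpη : ‖p - 1‖ ≤ η := by linarith
  have hPsi : ∀ l ∈ Icc a b, ‖Psi l p - 1‖ ≤ (M - 1) * ε := fun l hl => by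
    obtain ⟨T, hT⟩ := exists_T (d := d) (ha0.trans_le hl.1) (hl.2.trans_lt hb1)
    have h3 := hsd l hl T hT p 1 (hpη.trans ((min_le_left _ _).trans (min_le_right _ _)))
      (by simpa using hr2.le)
    rw [Psi_one c hl] at h3
    have h4 := T_norm c hl hT (p - 1)
    have h5 := norm_add_le (Psi l p - 1 - T (p - 1)) (T (p - 1))
    rw [sub_add_cancel] at h5
    have h6 := mul_le_mul_of_nonneg_left hp (by linarith : 0 ≤ (sig d).real univ / B + 1)
    rw [hM]
    nlinarith
  obtain ⟨e, -⟩ := exists_polar hd 0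
  have hF := fun l hl => hfl l hl p (hpη.trans ((min_le_left _ _).trans (min_le_left _ _))) hK e
  have hρ : (M - 1) * ε ≤ η := by nlinarith
  have hball : ∀ l ∈ Icc a b, closedBall 0 (l * (1 - (M - 1) * ε)) ⊆
      (fun y => l • y + (0 : E d)) '' body (Psi l p) ∧
      (fun y => l • y + (0 : E d)) '' body (Psi l p) ⊆ closedBall 0 (l * (1 + (M - 1) * ε)) :=
    fun l hl => by
      obtain ⟨h3, h4⟩ := body_between hd (by linarith) (hPsi l hl)
      exact hom_ball (ha0.trans_le hl.1) 0 h3 h4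
  obtain ⟨g1, g2⟩ := hom_ball hγ0 x h1 h2
  have hab : a ≤ b := by linarith [hγ.1, hγ.2]
  have hρ0 : 0 ≤ (M - 1) * ε := mul_nonneg (by linarith) hε0
  have hδa : δ ≤ FF a 1 1 (e : E d) / d := by
    by_contra h3
    have h4 := fl_anti (body p) (not_le.1 h3).le
    rw [h, hF a ⟨le_rfl, hab⟩] at h4
    have h5 := ball_sub hd (mul_nonneg hγ0.le (by linarith))
      (g1.trans (h4.trans (hball a ⟨le_rfl, hab⟩).2))
    nlinarith [norm_nonneg (x - 0), hγ.1, hγ.2]
  have hδb : FF b 1 1 (e : E d) / d ≤ δ := by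
    by_contra h3
    have h4 := fl_anti (body p) (not_le.1 h3).le
    rw [h, hF b ⟨hab, le_rfl⟩] at h4
    have h5 := ball_sub hd (mul_nonneg (by linarith) (by linarith))
      ((hball b ⟨hab, le_rfl⟩).1.trans (h4.trans g2))
    nlinarith [norm_nonneg (0 - x), hγ.1, hγ.2]
  have hcont : ContinuousOn (fun l => FF l (1 : X d) 1 (e : E d) / d) (Icc a b) := by
    rw [continuousOn_iff_continuous_restrict]
    exact (FF_cont (Z := Icc a b) 1 continuous_subtype_val (fun z => (ha0.trans_le z.2.1).ne')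
      continuous_const continuous_const).div_const _
  obtain ⟨l, hl, rfl⟩ := intermediate_value_Icc' hab hcont ⟨hδb, hδa⟩
  have e1 := (hF l hl).symm.trans h
  refine ⟨?_, p, l, hl, rfl, hpM, (hPsi l hl).trans (by nlinarith), hs, e1⟩
  obtain ⟨g3, g4⟩ := hball l hl
  rw [e1] at g3 g4
  have h5 := ball_sub hd (mul_nonneg hγ0.le (by linarith)) (g1.trans g4)
  have h6 := ball_sub hd (mul_nonneg (ha0.trans_le hl.1).le (by linarith)) (g3.trans g2)
  rw [sub_zero] at h5
  rw [zero_sub, norm_neg] at h6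
  nlinarith [hl.2]

end Pool.Agent.Lib.MP_5b78b3_gt.Rig
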