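import Mathlib
import Pool.Agent.Lib.MP_5b78b3_gt.Rig.Geo

/-! Local rigidity of ellipsoids for the homothety problem. -/

namespace Pool.Agent.Lib.MP_5b78b3_gt.Rig

open MeasureTheory Metric Set Filter Topology

variable {d : ℕ}

lemma scale_le (hd : 0 < d) {p q : X d} (hp : ∀ v, 0 ≤ p v) (hq : ∀ v, 0 ≤ q v) {l γ : ℝ}
    (hl : 0 < l) (hγ : 0 < γ)
    (h : (fun y => γ • y + (0 : E d)) '' body p ⊆ (fun y => l • y + (0 : E d)) '' body q)
    (v : S d) : γ ^ d * p v ≤ l ^ d * q v := by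
  have h0 : 0 ≤ rt d (p v) := Real.rpow_nonneg (hp v) _
  obtain ⟨y, hy, e⟩ := h ⟨_, (mem_body hd hp v h0).2 (rt_pow hd (hp v)).le, rfl⟩
  simp only [add_zero] at e
  have e2 : y = (γ * rt d (p v) / l) • (v : E d) := by
    rw [div_eq_inv_mul, mul_smul, mul_smul, ← e, smul_smul, inv_mul_cancel₀ hl.ne', one_smul]
  rw [e2, mem_body hd hq v (by positivity), div_pow, mul_pow, rt_pow hd (hp v),
    div_le_iff₀ (by positivity)] at hy
  linarith

lemma squeeze (hd : 0 < d) {p : X d} {A : E d →L[ℝ] E d}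
    (hA : ∀ x y, inner ℝ (A x) y = inner ℝ x (A y)) {η σ ε : ℝ} (hσ : σ ≤ 1 / 2) (hη : η ≤ 1 / 4)
    (h1 : ∀ v : S d, |inner ℝ (v : E d) (A v)| ≤ σ)
    (h2 : ∀ v : S d, |p v - 1 - inner ℝ (v : E d) (A v)| ≤ η) (hε : 2 * η + 2 * σ ^ 2 ≤ ε) :
    ∃ G : E d ≃ₗ[ℝ] E d, closedBall 0 (1 - ε) ⊆ G '' body p ∧
      G '' body p ⊆ closedBall 0 (1 + ε) := by
  have hd1 : (1 : ℝ) ≤ d := by exact_mod_cast hd
  let L : E d →ₗ[ℝ] E d := LinearMap.id - (d : ℝ)⁻¹ • (A : E d →ₗ[ℝ] E d)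
  have hL : ∀ y, L y = y - (d : ℝ)⁻¹ • A y := fun _ => rfl
  have hp : ∀ v, 0 ≤ p v := fun v => by linarith [(abs_le.1 (h1 v)).1, (abs_le.1 (h2 v)).1]
  obtain ⟨e, -⟩ := exists_polar hd 0
  have hσ0 : 0 ≤ σ := (abs_nonneg _).trans (h1 e)
  have hη0 : 0 ≤ η := (abs_nonneg _).trans (h2 e)
  have hq : ∀ v : S d, ∃ t : ℝ, inner ℝ (v : E d) (A v) = d * t ∧ |t| ≤ σ ∧ 1 - t ≤ ‖L v‖ ∧
      ‖L v‖ ≤ 1 - t + σ ^ 2 := fun v => by
    have a1 := h1 v
    have a2 := quad_norm hA h1 v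
    set t := (d : ℝ)⁻¹ * inner ℝ (v : E d) (A v) with ht
    have a3 : |t| ≤ σ := by
      rw [ht, abs_mul, abs_of_pos (by positivity : (0 : ℝ) < (d : ℝ)⁻¹)]
      exact (mul_le_of_le_one_left (abs_nonneg _) (inv_le_one_of_one_le₀ hd1)).trans a1
    have a4 : ‖(d : ℝ)⁻¹ • A v‖ ≤ σ := by
      rw [norm_smul, Real.norm_of_nonneg (by positivity)]
      exact (mul_le_of_le_one_left (norm_nonneg _) (inv_le_one_of_one_le₀ hd1)).trans a2
    refine ⟨t, by rw [ht]; field_simp, a3, ?_, ?_⟩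
    · have := real_inner_le_norm (v : E d) (L v)
      rwa [norm_S, one_mul, hL, inner_sub_right, inner_S_self, inner_smul_right, ← hL] at this
    · have a5 := abs_le.1 a3
      refine le_of_sq_le_sq ?_ (by nlinarith)
      have a6 := pow_le_pow_left₀ (norm_nonneg _) a4 2
      rw [hL, norm_sub_sq_real, norm_S, inner_smul_right, ← ht]
      nlinarith [sq_nonneg t, sq_nonneg (σ ^ 2), mul_nonneg (sq_nonneg σ) (by linarith : 0 ≤ 1 / 2 - t)]
  have hinj : Function.Injective L := by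
    rw [injective_iff_map_eq_zero]
    intro y hy
    obtain ⟨v, hv⟩ := exists_polar hd y
    obtain ⟨t, -, a1, a2, -⟩ := hq v
    rw [hv, map_smul, smul_eq_zero] at hy
    rcases hy with hy | hy
    · exact norm_eq_zero.1 hy
    · rw [hy, norm_zero] at a2
      linarith [(abs_le.1 a1).2]
  refine ⟨LinearEquiv.ofInjectiveEndo L hinj, fun z hz => ?_, ?_⟩
  · obtain ⟨y, rfl⟩ := (LinearEquiv.ofInjectiveEndo L hinj).surjective z
    refine mem_image_of_mem _ ?_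
    obtain ⟨v, hv⟩ := exists_polar hd y
    obtain ⟨t, a0, a1, a2, -⟩ := hq v
    have a3 := abs_le.1 a1
    have a4 := abs_le.1 (h1 v)
    have a5 := (abs_le.1 (h2 v)).1
    have hz' : ‖y‖ * (1 - t) ≤ 1 - ε := by
      rw [mem_closedBall_zero_iff] at hz
      change ‖L y‖ ≤ _ at hz
      rw [hv, map_smul, norm_smul, norm_norm] at hz
      exact (mul_le_mul_of_nonneg_left a2 (norm_nonneg y)).trans hz
    have b0 : 0 ≤ ‖y‖ * (1 - t) := mul_nonneg (norm_nonneg y) (by linarith)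
    have b1 : (‖y‖ * (1 - t)) ^ d ≤ 1 - ε :=
      (pow_le_of_le_one b0 (by nlinarith) hd.ne').trans hz'
    have b2 := one_add_mul_le_pow (a := -t) (by linarith) d
    rw [mul_pow] at b1
    have b3 : ‖y‖ ^ d * (1 - d * t) ≤ 1 - ε := by
      refine le_trans (mul_le_mul_of_nonneg_left ?_ (by positivity)) b1
      rw [sub_eq_add_neg 1 t]
      linarith
    rw [hv, mem_body hd hp v (norm_nonneg y)]
    rw [a0] at a4 a5
    generalize (d : ℝ) * t = q at *
    refine le_of_mul_le_mul_right (b3.trans ?_) (by linarith : 0 < 1 - q)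
    nlinarith
  · rintro _ ⟨y, hy, rfl⟩
    obtain ⟨v, hv⟩ := exists_polar hd y
    obtain ⟨t, a0, a1, -, a2⟩ := hq v
    have a3 := abs_le.1 a1
    have a5 := (abs_le.1 (h2 v)).2
    rw [hv, mem_body hd hp v (norm_nonneg y)] at hy
    have b2 := one_add_mul_le_pow (a := t + η) (by linarith) d
    have b3 : ‖y‖ ≤ 1 + (t + η) :=
      le_of_pow_le_pow_left₀ hd.ne' (by linarith) (hy.trans (le_trans (by nlinarith) b2))
    rw [mem_closedBall_zero_iff]
    change ‖L y‖ ≤ _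
    rw [hv, map_smul, norm_smul, norm_norm]
    refine (mul_le_mul b3 a2 (norm_nonneg _) (by linarith)).trans ?_
    nlinarith [sq_nonneg t, mul_nonneg (sq_nonneg σ) (by linarith : 0 ≤ 1 - t - η),
      mul_nonneg hη0 (by linarith : 0 ≤ 1 / 2 + t), mul_nonneg hη0 (by nlinarith : 0 ≤ 1 / 4 - σ ^ 2)]

/-- the bodies under consideration -/
def PK (s : Prop) (γ ε : ℝ) (K : Set (E d)) : Prop :=
  IsCompact K ∧ Convex ℝ K ∧ (s → ∀ y ∈ K, -y ∈ K) ∧ closedBall 0 (1 - ε) ⊆ K ∧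
    K ⊆ closedBall 0 (1 + ε) ∧ ∃ δ, fl K δ = (fun y => γ • y + (0 : E d)) '' K

theorem step (m : ℕ) (s : Prop) {a b B r a' b' : ℝ} (c : Ctx (m + 2) a b B r) (ha : a < a')
    (hb : b' < b) (h : ∀ l ∈ Icc a b, ∀ k, 2 ≤ k → (s → Odd k) → QQ (m + 2) k l ≠ l) :
    ∃ ε0 > 0, ε0 ≤ 1 / 2 ∧ ∀ γ ∈ Icc a' b', ∀ ε ≤ ε0, 0 ≤ ε → ∀ K : Set (E (m + 2)), PK s γ ε K →
      ∃ G : E (m + 2) ≃ₗ[ℝ] E (m + 2), PK s γ (ε / 2) (G '' K) := by
  obtain ⟨C, hC, hq⟩ := quad_bound m s c h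
  obtain ⟨ε1, hε1, hε1', M, hM, hloc⟩ := locate c ha hb
  obtain ⟨r1, hr1, hsd⟩ := strict_diff c (θ := 1 / (16 * C * M)) (by positivity)
  have ha0 := c.ha
  refine ⟨min (min ε1 (min (r1 / M) (1 / (4 * (M + 1))))) (min (1 / (64 * C * M ^ 2))
    (1 / (8 * (M + 1) ^ 2))), by positivity,
    (min_le_left _ _).trans ((min_le_left _ _).trans hε1'), fun γ hγ ε hε hε0 K hK => ?_⟩
  obtain ⟨k1, k2, k3, k4, k5, δ, k6⟩ := hK
  simp only [le_min_iff] at hε
  obtain ⟨⟨e1, e2, e3⟩, e4, e5⟩ := hε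
  rw [le_div_iff₀ (by positivity)] at e2 e3 e4 e5
  obtain ⟨-, p, l, hl, rfl, p1, p2, p3, p4⟩ := hloc ε e1 K k1.isClosed k2 k4 k5 δ 0 γ hγ k6
  have hl0 : 0 < l := ha0.trans_le hl.1
  have hγ0 : 0 < γ := by linarith [hγ.1]
  have hMε : M * ε ≤ 1 / 4 := by nlinarith
  have hp : ∀ v, 1 / 2 ≤ p v := fun v => by linarith [(abs_le.1 (abs_sub_one_le p1 v)).1]
  have hp0 : ∀ v, 0 ≤ p v := fun v => by linarith [hp v]
  have hP0 : ∀ v, 0 ≤ Psi l p v := fun v => by linarith [(abs_le.1 (abs_sub_one_le p2 v)).1]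
  set κ := γ ^ (m + 2) / l ^ (m + 2) with hκ
  have hPsi : Psi l p = κ • p := by
    ext v
    have b1 := scale_le c.hd hp0 hP0 hl0 hγ0 p4.ge v
    have b2 := scale_le c.hd hP0 hp0 hγ0 hl0 p4.le v
    rw [ContinuousMap.smul_apply, smul_eq_mul, hκ, div_mul_eq_mul_div,
      eq_div_iff (by positivity)]
    linarith
  have hκ1 : |κ - 1| ≤ 4 * (M * ε) := by
    obtain ⟨v, -⟩ := exists_polar c.hd 0
    have b1 := abs_le.1 (abs_sub_one_le p1 v)
    have b2 := abs_le.1 (abs_sub_one_le p2 v)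
    rw [hPsi, ContinuousMap.smul_apply, smul_eq_mul] at b2
    have b3 : |κ - 1| * p v ≤ 2 * (M * ε) := by
      rw [← abs_of_nonneg (hp0 v), ← abs_mul, abs_le]
      constructor <;> linarith
    nlinarith [hp v, abs_nonneg (κ - 1)]
  obtain ⟨T, hT⟩ := exists_T (d := m + 2) hl0 (hl.2.trans_lt c.hb)
  have b1 := hsd l hl T hT p 1 (p1.trans (by linarith)) (by simpa using hr1.le)
  rw [Psi_one c hl, hPsi] at b1
  obtain ⟨q, ⟨A, hA, hAq⟩, b2⟩ := hq l hl T hT (p - 1)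
    (sub_mem (fun hs => p3 (k3 hs)) fun _ => rfl) (κ - 1)
  have b3 : p - 1 - T (p - 1) + (κ - 1) • 1 = (κ • p - 1 - T (p - 1)) - (κ - 1) • (p - 1) := by
    module
  have b4 := norm_sub_le (κ • p - 1 - T (p - 1)) ((κ - 1) • (p - 1))
  rw [← b3, norm_smul, Real.norm_eq_abs] at b4
  have b5 : ‖p - 1 - q‖ ≤ ε / 8 := by
    have b6 : 1 / (16 * C * M) * ‖p - 1‖ ≤ 1 / (16 * C * M) * (M * ε) := by gcongr
    have b7 : |κ - 1| * ‖p - 1‖ ≤ 4 * (M * ε) * (M * ε) := by gcongr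
    have b8 : C * (1 / (16 * C * M) * (M * ε)) = ε / 16 := by field_simp
    have b9 := mul_le_mul_of_nonneg_left (b4.trans (add_le_add (b1.trans b6) b7)) hC.le
    rw [mul_add, b8] at b9
    nlinarith
  have c1 : ∀ v, |p v - 1 - q v| ≤ ε / 8 := fun v => (abs_apply_le (p - 1 - q) v).trans b5
  obtain ⟨G, g1, g2⟩ := squeeze c.hd hA (p := p) (η := ε / 8) (σ := (M + 1) * ε) (ε := ε / 2)
    (by linarith) (by nlinarith) (fun v => by
      have c2 := abs_le.1 (c1 v)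
      have c3 := abs_le.1 (abs_sub_one_le p1 v)
      rw [← hAq, abs_le]
      constructor <;> linarith) (fun v => by rw [← hAq]; exact c1 v) (by nlinarith)
  obtain ⟨D, -, hD⟩ := fl_affine G.toAffineEquiv
  refine ⟨G, k1.image G.toLinearMap.continuous_of_finiteDimensional, k2.linear_image G.toLinearMap,
    fun hs => ?_, g1, g2, D * δ, ?_⟩
  · rintro _ ⟨y, hy, rfl⟩
    exact ⟨-y, k3 hs y hy, map_neg G y⟩
  · have := hD (body p) δ
    rw [k6, aff_hom] at this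
    simpa using this

theorem limit (hd : 0 < d) {K : Set (E d)} (hK : IsClosed K)
    (h0 : closedBall 0 (1 / 2) ⊆ K) (h1 : K ⊆ closedBall 0 2)
    (h : ∀ n : ℕ, ∃ G : E d ≃ₗ[ℝ] E d, closedBall 0 (1 - (1 / 2) ^ n) ⊆ G '' K ∧
      G '' K ⊆ closedBall 0 (1 + (1 / 2) ^ n)) :
    ∃ A : E d ≃ᵃ[ℝ] E d, K = A '' closedBall 0 1 := by
  choose G g1 g2 using h
  let F : ℕ → E d →L[ℝ] E d := fun n => LinearMap.toContinuousLinearMap (G n : E d →ₗ[ℝ] E d)
  have hF : ∀ n y, F n y = G n y := fun _ _ => rfl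
  have hb : ∀ n, F n ∈ closedBall (0 : E d →L[ℝ] E d) 4 := fun n => by
    rw [mem_closedBall_zero_iff]
    refine ContinuousLinearMap.opNorm_le_bound _ (by norm_num) fun y => ?_
    obtain ⟨v, hv⟩ := exists_polar hd y
    have a1 := g2 n (mem_image_of_mem _ (h0 (a := (1 / 2 : ℝ) • (v : E d)) (by
      rw [mem_closedBall_zero_iff, norm_smul, norm_S]; norm_num)))
    rw [mem_closedBall_zero_iff, map_smul, norm_smul] at a1
    have a2 : (1 / 2 : ℝ) ^ n ≤ 1 := pow_le_one₀ (by norm_num) (by norm_num)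
    have a3 : ‖G n v‖ ≤ 4 := by
      norm_num at a1 a2 ⊢
      linarith
    rw [hF]
    conv_lhs => rw [hv, map_smul, norm_smul, norm_norm, mul_comm]
    gcongr
  obtain ⟨H, -, φ, hφ, hH⟩ := tendsto_subseq_of_bounded isBounded_closedBall hb
  have hy : ∀ y, Tendsto (fun n => ‖G (φ n) y‖) atTop (𝓝 ‖H y‖) := fun y =>
    (((ContinuousLinearMap.apply ℝ (E d) y).continuous.tendsto H).comp hH).norm
  have he : Tendsto (fun n => (1 / 2 : ℝ) ^ φ n) atTop (𝓝 0) :=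
    (tendsto_pow_atTop_nhds_zero_of_lt_one (by norm_num) (by norm_num)).comp hφ.tendsto_atTop
  have c1 : ∀ y ∈ K, ‖H y‖ ≤ 1 := fun y hyK =>
    le_of_tendsto_of_tendsto' (hy y) (by simpa using he.const_add 1) fun n =>
      mem_closedBall_zero_iff.1 (g2 _ (mem_image_of_mem _ hyK))
  have c2 : ∀ y, ‖H y‖ < 1 → y ∈ K := fun y hy1 => by
    obtain ⟨n, hn⟩ := ((hy y).eventually_lt (by simpa using he.const_sub 1) hy1).exists
    exact (G _).injective.mem_set_image.1 (g1 _ (mem_closedBall_zero_iff.2 (by simpa using hn.le)))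
  have hinj : Function.Injective (H : E d →ₗ[ℝ] E d) := by
    rw [injective_iff_map_eq_zero]
    intro y hy0
    obtain ⟨v, hv⟩ := exists_polar hd y
    rw [hv, map_smul, smul_eq_zero] at hy0
    refine hy0.elim norm_eq_zero.1 fun h3 => ?_
    have h4 := h1 (c2 ((3 : ℝ) • (v : E d)) (by
      rw [map_smul, show H v = 0 from h3]; simp))
    rw [mem_closedBall_zero_iff, norm_smul, norm_S] at h4
    norm_num at h4
  let A := (LinearEquiv.ofInjectiveEndo _ hinj).symm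
  have hA : ∀ z, H (A z) = z := fun z => (LinearEquiv.ofInjectiveEndo _ hinj).apply_symm_apply z
  refine ⟨A.toAffineEquiv, Subset.antisymm (fun y hyK => ⟨H y, mem_closedBall_zero_iff.2 (c1 y hyK),
    (LinearEquiv.ofInjectiveEndo _ hinj).symm_apply_apply y⟩) ?_⟩
  rw [← closure_ball 0 one_ne_zero]
  refine (image_closure_subset_closure_image
    A.toLinearMap.continuous_of_finiteDimensional).trans (hK.closure_subset_iff.2 ?_)
  rintro _ ⟨z, hz, rfl⟩
  exact c2 _ (by rw [show (A.toLinearMap z) = A z from rfl, hA]; exact mem_ball_zero_iff.1 hz)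

lemma centre {K : Set (E d)} (hK : IsCompact K) (hne : K.Nonempty) {z x : E d} {δ γ : ℝ}
    (hγ : 0 < γ) (hs : ∀ y ∈ K, z + z - y ∈ K) (h : fl K δ = (fun y => γ • y + x) '' K) :
    x = (1 - γ) • z := by
  set R := AffineEquiv.pointReflection ℝ z with hR
  have hRy : ∀ y, R y = z + z - y := fun y => by
    rw [hR, AffineEquiv.pointReflection_apply, vsub_eq_sub, vadd_eq_add]; abel
  have hRK : R '' K = K := Subset.antisymm (by rintro _ ⟨y, hy, rfl⟩; rw [hRy]; exact hs y hy)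
    fun y hy => ⟨_, hs y hy, by rw [hRy]; abel⟩
  obtain ⟨D, -, hD⟩ := fl_affine R
  have h1 := hD K δ
  rw [h, aff_hom, hRK] at h1
  have key : ∀ u w : E d, (fun y => γ • y + u) '' K ⊆ (fun y => γ • y + w) '' K → u = w := by
    intro u w huw
    have := translate_eq_zero hK hne (w := γ⁻¹ • (u - w)) fun y hy => by
      obtain ⟨y', hy', e⟩ := huw ⟨y, hy, rfl⟩
      have e' : γ • y' + w = γ • y + u := e
      have : y + γ⁻¹ • (u - w) = y' := by
        refine smul_right_injective _ hγ.ne' ?_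
        simp only [smul_add, smul_smul, mul_inv_cancel₀ hγ.ne', one_smul]
        rw [eq_sub_of_add_eq e']; abel
      rwa [this]
    exact sub_eq_zero.1 ((smul_eq_zero.1 this).resolve_left (inv_ne_zero hγ.ne'))
  have h2 : x = R x - γ • R 0 := by
    rcases le_total δ (D * δ) with h3 | h3
    · exact (key _ _ (by rw [← h1, ← h]; exact fl_anti K h3)).symm
    · exact key _ _ (by rw [← h1, ← h]; exact fl_anti K h3)
  rw [hRy, hRy] at h2
  refine smul_right_injective _ (two_ne_zero (α := ℝ)) ?_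
  simp only
  rw [two_smul ℝ x]
  nth_rewrite 1 [h2]
  module

theorem rigid (m : ℕ) (s : Prop) {a b a' b' : ℝ} (ha0 : 0 < a) (ha : a < a') (hb : b' < b)
    (hb1 : b < 1) (h : ∀ l ∈ Icc a b, ∀ k, 2 ≤ k → (s → Odd k) → QQ (m + 2) k l ≠ l) :
    ∃ ε > 0, ∀ (K : Set (E (m + 2))) (δ γ : ℝ) (x z : E (m + 2)) (A : E (m + 2) ≃ᵃ[ℝ] E (m + 2)),
      IsCompact K → Convex ℝ K → (s → ∀ y ∈ K, z + z - y ∈ K) →
      closedBall 0 (1 - ε) ⊆ A '' K → A '' K ⊆ closedBall 0 (1 + ε) → γ ∈ Icc a' b' →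
      fl K δ = (fun y => γ • y + x) '' K →
      ∃ A' : E (m + 2) ≃ᵃ[ℝ] E (m + 2), K = A' '' closedBall 0 1 := by
  obtain ⟨B, r, c⟩ := exists_Ctx (d := m + 2) (by omega) ha0 hb1
  obtain ⟨ε0, hε0, hε0', hst⟩ := step m s c ha hb h
  obtain ⟨ε1, hε1, hε1', M, hM, hloc⟩ := locate c ha hb
  have hb2 : 0 < 1 - b := by linarith
  set ε := min ε1 (ε0 / (1 + M / (1 - b))) with hε
  have hεp : 0 < ε := by positivity
  have e2 : ε ≤ ε0 / (1 + M / (1 - b)) := min_le_right _ _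
  rw [le_div_iff₀ (by positivity)] at e2
  refine ⟨ε, hεp, fun K δ γ x z A k1 k2 k3 k4 k5 hγ k6 => ?_⟩
  have hγ0 : 0 < γ := by linarith [hγ.1]
  have hγ1 : 1 - b ≤ 1 - γ := by linarith [hγ.2]
  have aff : ∀ (A : E (m + 2) ≃ᵃ[ℝ] E (m + 2)) (K : Set (E (m + 2))), IsCompact K → Convex ℝ K →
      IsCompact (A '' K) ∧ Convex ℝ (A '' K) := fun A K k1 k2 =>
    ⟨k1.image A.toAffineMap.continuous_of_finiteDimensional, k2.affine_image A.toAffineMap⟩
  obtain ⟨D, -, hD⟩ := fl_affine A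
  have l6 := hD K δ
  rw [k6, aff_hom] at l6
  obtain ⟨l1, l2⟩ := aff A K k1 k2
  have hx := (hloc ε (min_le_left _ _) _ l1.isClosed l2 k4 k5 _ _ γ hγ l6).1
  set x1 := A x - γ • A 0 with hx1
  set x0 := (1 - γ)⁻¹ • x1 with hx0
  have hx2 : ‖x0‖ ≤ ε0 - ε := by
    rw [hx0, norm_smul, norm_inv, Real.norm_of_nonneg (by linarith), ← div_eq_inv_mul]
    calc _ ≤ M * ε / (1 - b) := by gcongr
      _ = ε * (M / (1 - b)) := by ring
      _ ≤ _ := by linarith
  set N := AffineEquiv.constVAdd ℝ (E (m + 2)) (-x0) with hN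
  have hNy : ∀ y, N y = y - x0 := fun y => by
    rw [hN, AffineEquiv.constVAdd_apply, vadd_eq_add]; abel
  obtain ⟨D', -, hD'⟩ := fl_affine N
  have n6 := hD' (A '' K) (D * δ)
  have e3 : N x1 - γ • N 0 = 0 := by
    have : x1 = (1 - γ) • x0 := by
      rw [hx0, smul_smul, mul_inv_cancel₀ (by linarith), one_smul]
    rw [hNy, hNy]
    nth_rewrite 1 [this]
    module
  rw [l6, aff_hom, e3] at n6
  obtain ⟨n1, n2⟩ := aff N _ l1 l2
  have P0 : PK s γ ε0 (N '' (A '' K)) := by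
    refine ⟨n1, n2, fun hs => ?_, fun y hy => ⟨y + x0, k4 ?_, by rw [hNy]; abel⟩, ?_, _, n6⟩
    · have hs' : ∀ y ∈ A '' K, A z + A z - y ∈ A '' K := by
        rintro _ ⟨y, hy, rfl⟩
        refine ⟨_, k3 hs y hy, ?_⟩
        rw [aff_eq A (z + z - y), aff_eq A z, aff_eq A y, map_sub, map_add]; abel
      have hz := centre l1 ⟨0, k4 (mem_closedBall_self (by linarith [min_le_left ε1 (ε0 / (1 + M / (1 - b)))]))⟩
        hγ0 hs' l6
      have hz' : x0 = A z := by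
        rw [hx0, hz, smul_smul, inv_mul_cancel₀ (by linarith), one_smul]
      rintro _ ⟨y, hy, rfl⟩
      exact ⟨_, hs' y hy, by rw [hNy, hNy, hz']; abel⟩
    · rw [mem_closedBall_zero_iff] at hy ⊢
      linarith [norm_add_le y x0]
    · rintro _ ⟨y, hy, rfl⟩
      have := mem_closedBall_zero_iff.1 (k5 hy)
      rw [mem_closedBall_zero_iff, hNy]
      linarith [norm_sub_le y x0]
  have hn : ∀ n : ℕ, ∃ G : E (m + 2) ≃ₗ[ℝ] E (m + 2),
      PK s γ (ε0 * (1 / 2) ^ n) (G '' (N '' (A '' K))) := fun n => by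
    induction n with
    | zero =>
      refine ⟨LinearEquiv.refl _ _, ?_⟩
      rwa [pow_zero, mul_one, show ⇑(LinearEquiv.refl ℝ (E (m + 2))) = id from rfl, image_id]
    | succ n ih =>
      obtain ⟨G, hG⟩ := ih
      obtain ⟨G', hG'⟩ := hst γ hγ _ (mul_le_of_le_one_right hε0.le
        (pow_le_one₀ (by norm_num) (by norm_num))) (by positivity) _ hG
      refine ⟨G.trans G', ?_⟩
      rw [image_image] at hG'
      rw [pow_succ, ← mul_assoc, mul_one_div]
      exact hG'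
  obtain ⟨A', hA'⟩ := limit c.hd n1.isClosed
    ((closedBall_subset_closedBall (by linarith)).trans P0.2.2.2.1)
    (P0.2.2.2.2.1.trans (closedBall_subset_closedBall (by linarith))) (fun n => by
      obtain ⟨G, hG⟩ := hn n
      have : ε0 * (1 / 2 : ℝ) ^ n ≤ (1 / 2) ^ n := mul_le_of_le_one_left (by positivity) (by linarith)
      exact ⟨G, (closedBall_subset_closedBall (by linarith)).trans hG.2.2.2.1,
        hG.2.2.2.2.1.trans (closedBall_subset_closedBall (by linarith))⟩)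
  refine ⟨(A'.trans N.symm).trans A.symm, ?_⟩
  rw [AffineEquiv.coe_trans, AffineEquiv.coe_trans, image_comp, image_comp, ← hA']
  simp [image_image]

lemma fl_eq (K : Set (E d)) (δ : ℝ) : (⋂ (u : E d) (t : ℝ) (_ : u ≠ 0)
    (_ : volume (K ∩ {y | t ≤ inner ℝ u y}) ≤ ENNReal.ofReal δ), {y : E d | inner ℝ u y ≤ t})
    = fl K δ := by
  refine iInter_congr fun u => iInter_congr fun t => iInter_congr fun hu => ?_
  have hnull : volume {y : E d | inner ℝ u y = t} = 0 := by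
    have hu' : 0 < ‖u‖ := norm_pos_iff.2 hu
    have := capdiv_plane (e := ‖u‖⁻¹ • u) (by simp [norm_smul, hu'.ne']) (‖u‖⁻¹ * t)
    rw [← this]
    congr 1
    ext y
    simp only [mem_ofPred_eq, inner_smul_left]
    simp [hu'.ne']
  have : volume (K ∩ {y | t ≤ inner ℝ u y}) = volume (K \ {y | inner ℝ u y ≤ t}) := by
    rw [← measure_sdiff_null (s := K ∩ {y | t ≤ inner ℝ u y}) hnull]
    congr 1
    ext y
    simp only [Set.mem_sdiff, mem_inter_iff, mem_ofPred_eq, not_le, and_assoc]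
    exact and_congr_right fun _ => ⟨fun h => lt_of_le_of_ne h.1 (Ne.symm h.2), fun h => ⟨h.le, h.ne'⟩⟩
  rw [this]

/-- the exceptional ratios -/
def Exc (d : ℕ) : Set ℝ := {l | 0 < l ∧ l < 1 ∧ ∃ k, 2 ≤ k ∧ QQ d k l = l}

lemma Exc_sub (m : ℕ) : Exc (m + 2) ⊆ Ioo 0 (1 / 4) := by
  rintro l ⟨h0, h1, k, hk, e⟩
  exact ⟨h0, lt_of_not_ge fun h => (QQ_lt_quarter m hk h h1).ne e⟩

lemma Exc_finite (m : ℕ) {a : ℝ} (ha : 0 < a) : (Exc (m + 2) ∩ Ici a).Finite := by
  obtain ⟨j, -, hj⟩ := exists_tail m ha (b := 1 / 4) (by norm_num)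
  refine ((finite_Ico 2 (2 * j)).biUnion fun k hk => QQ_finite m hk.1).subset ?_
  rintro l ⟨hl, hla⟩
  have h4 := (Exc_sub m hl).2
  obtain ⟨h0, h1, k, hk, e⟩ := hl
  refine mem_biUnion (x := k) ⟨hk, lt_of_not_ge fun h => ?_⟩ e
  have h2 := (le_abs_self _).trans ((QQ_le_tl m h h0 h1).trans (hj l ⟨hla, h4.le⟩))
  have h3 : a ≤ l := hla
  linarith

lemma Exc_enlarge (m : ℕ) {a b : ℝ} (ha : 0 < a) (hb : b < 1) (h : Disjoint (Icc a b) (Exc (m + 2))) :
    ∃ a1 b1, 0 < a1 ∧ a1 < a ∧ b < b1 ∧ b1 < 1 ∧ (a ≤ b → Disjoint (Icc a1 b1) (Exc (m + 2))) := by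
  have hc := (Exc_finite m (half_pos ha)).isClosed
  obtain ⟨η, hη, h2⟩ := (h.mono_right (inter_subset_left (t := Ici (a / 2)))).exists_cthickenings
    isCompact_Icc hc
  have h3 : 0 < min η (min (a / 2) ((1 - b) / 2)) := lt_min hη (lt_min (by linarith) (by linarith))
  have h4 := min_le_left η (min (a / 2) ((1 - b) / 2))
  have h5 := (min_le_right η _).trans (min_le_left (a / 2) ((1 - b) / 2))
  have h6 := (min_le_right η _).trans (min_le_right (a / 2) ((1 - b) / 2))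
  generalize min η (min (a / 2) ((1 - b) / 2)) = t at *
  refine ⟨a - t, b + t, by linarith, by linarith, by linarith, by linarith, fun hab => ?_⟩
  rw [disjoint_left] at h2 ⊢
  intro l hl hE
  refine h2 (a := l) (mem_cthickening_of_dist_le l (max a (min l b)) _ _
    ⟨le_max_left _ _, max_le hab (min_le_right _ _)⟩ ?_)
    (self_subset_cthickening _ ⟨hE, by have := hl.1; simp only [mem_Ici]; linarith⟩)
  rw [Real.dist_eq, abs_le]
  have := hl.1
  have := hl.2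
  constructor
  · have : max a (min l b) ≤ l + η := max_le (by linarith) ((min_le_left _ _).trans (by linarith))
    linarith
  · have : l - η ≤ max a (min l b) := le_max_of_le_right (le_min (by linarith) (by linarith))
    linarith

end Pool.Agent.Lib.MP_5b78b3_gt.Rig
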