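import Mathlib

/-! Notions used in the statements on local rigidity. -/

namespace Pool.Agent.Lib.MP_5b78b3_gt.Rig

/-- the convex floating body: the intersection of the closed halfspaces whose complementary closed
halfspace meets `K` in volume at most `δ` -/
def floating {d : ℕ} (K : Set (EuclideanSpace ℝ (Fin d))) (δ : ℝ) :
    Set (EuclideanSpace ℝ (Fin d)) :=
  ⋂ (u : EuclideanSpace ℝ (Fin d)) (t : ℝ) (_ : u ≠ 0)
    (_ : MeasureTheory.volume (K ∩ {y | t ≤ inner ℝ u y}) ≤ ENNReal.ofReal δ),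
    {y : EuclideanSpace ℝ (Fin d) | inner ℝ u y ≤ t}

/-- `L` is the image of `K` under an invertible affine map -/
def AffImage {d : ℕ} (K L : Set (EuclideanSpace ℝ (Fin d))) : Prop :=
  ∃ A : EuclideanSpace ℝ (Fin d) ≃ᵃ[ℝ] EuclideanSpace ℝ (Fin d), L = A '' K

end Pool.Agent.Lib.MP_5b78b3_gt.Rig
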